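import Pool.Agent.U587.EV.Cmp

set_option autoImplicit false

/-!
A box of integer sides as a union of unit cubes.
-/

namespace Pool.Agent.U587.EV

open MeasureTheory Filter Finset
open Pool.Agent.Y957.MC (box bavg lin)
open scoped Topology

/-- the box `(0, M_1] × ... × (0, M_k]` in `ℝ^k` -/
def rbox {k : ℕ} (M : Fin k → ℕ) : Set (Fin k → ℝ) := Set.pi Set.univ fun i => Set.Ioc 0 (M i : ℝ)

/-- a unit cube -/
def cell {k : ℕ} (m : Fin k → ℕ) : Set (Fin k → ℝ) := Set.pi Set.univ fun i => Set.Ioc ((m i : ℝ) - 1) (m i)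

lemma rbox_eq {k : ℕ} (M : Fin k → ℕ) : rbox M = ⋃ m ∈ box M, cell m := by
  ext z
  unfold rbox cell
  simp only [Set.mem_pi, Set.mem_univ, true_implies, Set.mem_iUnion, Pool.Agent.Y86.MC.mem_box, exists_prop, Set.mem_Ioc]
  constructor
  · intro h
    refine ⟨fun i => ⌈z i⌉₊, fun i => ⟨?_, ?_⟩, fun i => ⟨?_, Nat.le_ceil _⟩⟩
    · exact Nat.ceil_pos.2 (h i).1
    · exact Nat.ceil_le.2 (h i).2
    · have := Nat.ceil_lt_add_one (h i).1.le
      linarith
  · rintro ⟨m, hm, hz⟩ i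
    have h1 : (1 : ℝ) ≤ m i := by exact_mod_cast (hm i).1
    have h2 : (m i : ℝ) ≤ M i := by exact_mod_cast (hm i).2
    exact ⟨by linarith [(hz i).1], (hz i).2.trans h2⟩

lemma cell_disj {k : ℕ} (M : Fin k → ℕ) : Set.PairwiseDisjoint (↑(box M) : Set (Fin k → ℕ)) (cell (k := k)) := by
  intro m _ m' _ hmm
  rw [Function.onFun, Set.disjoint_left]
  intro z hz hz'
  apply hmm
  funext i
  unfold cell at hz hz'
  simp only [Set.mem_pi, Set.mem_univ, true_implies, Set.mem_Ioc] at hz hz'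
  have h1 : (m i : ℝ) < m' i + 1 := by linarith [(hz i).1, (hz' i).2]
  have h2 : (m' i : ℝ) < m i + 1 := by linarith [(hz' i).1, (hz i).2]
  have h3 : m i < m' i + 1 := by exact_mod_cast h1
  have h4 : m' i < m i + 1 := by exact_mod_cast h2
  omega

lemma cell_meas {k : ℕ} (m : Fin k → ℕ) : MeasurableSet (cell m) :=
  MeasurableSet.univ_pi fun _ => measurableSet_Ioc

lemma cell_int {k : ℕ} (m : Fin k → ℕ) (φ : (Fin k → ℝ) → ℂ) :
    ∫ z in cell m, φ z = ∫ y, φ (y + fun i => (m i : ℝ)) ∂(cu k) := by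
  unfold cu
  have h := MeasurePreserving.setIntegral_preimage_emb
    (measurePreserving_add_right (volume : Measure (Fin k → ℝ)) (fun i => (m i : ℝ)))
    (measurableEmbedding_addRight _) φ (cell m)
  rw [← h]
  congr 2
  ext y
  unfold cell
  simp only [Set.mem_preimage, Set.mem_pi, Set.mem_univ, true_implies, Set.mem_Ioc, Pi.add_apply]
  refine forall_congr' fun i => ⟨fun h => ⟨by linarith [h.1], by linarith [h.2]⟩,
    fun h => ⟨by linarith [h.1], by linarith [h.2]⟩⟩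

lemma rbox_int {k : ℕ} (M : Fin k → ℕ) {φ : (Fin k → ℝ) → ℂ} (hφ : Measurable φ) {K : ℝ} (hK : ∀ z, ‖φ z‖ ≤ K) :
    (1 / ((∏ i, M i : ℕ) : ℂ)) * ∫ z in rbox M, φ z =
      bavg M fun m => ∫ y, φ (y + fun i => (m i : ℝ)) ∂(cu k) := by
  unfold bavg
  congr 1
  rw [rbox_eq, integral_biUnion_finset _ (fun m _ => cell_meas m) (cell_disj M)]
  · exact sum_congr rfl fun m _ => cell_int m φ
  · intro m _
    refine Measure.integrableOn_of_bounded (M := K) ?_ hφ.aestronglyMeasurable (ae_of_all _ hK)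
    unfold cell
    rw [volume_pi, Measure.pi_pi]
    simp

lemma lr_add {k : ℕ} (c : Fin k → ℝ) (y z : Fin k → ℝ) : lr c (y + z) = lr c y + lr c z := by
  unfold lr
  rw [← sum_add_distrib]
  refine sum_congr rfl fun i _ => ?_
  rw [Pi.add_apply]
  ring

lemma lr_nat {k : ℕ} (c : Fin k → ℝ) (m : Fin k → ℕ) : lr c (fun i => (m i : ℝ)) = lin c m := rfl

end Pool.Agent.U587.EV
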