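import Pool.Agent.U587.EV.Dec

set_option autoImplicit false

/-!
Linear forms with a dense image of the lattice, at every time: comparison with the continuous averages.
-/

namespace Pool.Agent.U587.EV

open MeasureTheory Filter Finset
open Pool.Agent.Y957.MC (IsFlow flowInv smo smo_lip box bavg lin)
open Pool.Agent.R497.TB (ravg sep)
open Pool.Agent.Y312.MC (smo_meas smo_bdd smo_L1 meas_orb flowInv_le ii_orb condExp_smo inv_of_meas int_bdd)
open Pool.Agent.U587.ET (exists_small prod_diff_c norm_prod_le_one gs er gs_meas gs_bd gs_lip er_L1 sub_gs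
  er_meas er_bd disc_erg)
open Pool.Agent.U587.BX (bnorm lim_int sg_iter rmono rsum rconst_le rnonneg)
open Pool.Agent.R780.TB (norm_bavg_le)
open scoped Topology

universe u

variable {X : Type u} [mX : MeasurableSpace X] {μ : Measure X}

/-- the unit cube `(-1, 0]^k` -/
noncomputable def cu (k : ℕ) : Measure (Fin k → ℝ) := volume.restrict (Set.pi Set.univ fun _ => Set.Ioc (-1 : ℝ) 0)

lemma cu_prob (k : ℕ) : IsProbabilityMeasure (cu k) := by
  constructor
  unfold cu
  rw [Measure.restrict_apply_univ, volume_pi, Measure.pi_pi]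
  simp

/-- the value of a real linear form -/
noncomputable def lr {k : ℕ} (c : Fin k → ℝ) (y : Fin k → ℝ) : ℝ := ∑ i, c i * y i

lemma lr_meas {k : ℕ} (c : Fin k → ℝ) : Measurable (lr c) := by
  unfold lr
  exact Finset.measurable_sum _ fun i _ => measurable_const.mul (measurable_pi_apply i)

/-- the average over the lattice of averages over a family of shifts -/
noncomputable def cavg {Y : Type*} [MeasurableSpace Y] (ν : Measure Y) {k n : ℕ} (v : Y → Fin n → ℝ)
    (τ : Fin n → ℝ → X → X) (C : Fin n → Fin k → ℝ) (u : Fin n → X → ℂ) (M : Fin k → ℕ) (x : X) : ℂ :=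
  bavg M fun m => ∫ y, ∏ j, u j (τ j (lin (C j) m + v y j) x) ∂ν

/-- the mean over the family -/
noncomputable def em {Y : Type*} [MeasurableSpace Y] (ν : Measure Y) (τ : ℝ → X → X) (c : Y → ℝ) (h : X → ℝ)
    (x : X) : ℝ :=
  ∫ y, h (τ (c y) x) ∂ν

variable {Y : Type*} [MeasurableSpace Y] {ν : Measure Y} [IsProbabilityMeasure ν]

lemma em_facts [IsProbabilityMeasure μ] {τ : ℝ → X → X} (hτ : IsFlow μ τ) {c : Y → ℝ} (hc : Measurable c)
    {h : X → ℝ} (hm : Measurable h) {K : ℝ} (hb : ∀ x, 0 ≤ h x ∧ h x ≤ K) :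
    Measurable (em ν τ c h) ∧ (∀ x, 0 ≤ em ν τ c h x ∧ em ν τ c h x ≤ K) ∧
      ∫ x, em ν τ c h x ∂μ = ∫ x, h x ∂μ := by
  have hj : Measurable fun p : X × Y => h (τ (c p.2) p.1) :=
    hm.comp (hτ.meas.comp ((hc.comp measurable_snd).prodMk measurable_fst))
  have hi : Integrable (fun p : X × Y => h (τ (c p.2) p.1)) (μ.prod ν) := by
    refine Integrable.of_bound (C := K) hj.aestronglyMeasurable (ae_of_all _ fun p => ?_)
    rw [Real.norm_of_nonneg (hb _).1]
    exact (hb _).2
  refine ⟨?_, fun x => ⟨integral_nonneg fun y => (hb _).1, ?_⟩, ?_⟩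
  · have h2 : StronglyMeasurable fun p : X × Y => h (τ (c p.2) p.1) := hj.stronglyMeasurable
    exact (h2.integral_prod_right' (ν := ν)).measurable
  · unfold em
    have h3 : ∫ y, h (τ (c y) x) ∂ν ≤ ∫ _y : Y, K ∂ν := by
      refine integral_mono_of_nonneg (ae_of_all _ fun y => (hb _).1) (integrable_const _)
        (ae_of_all _ fun y => (hb _).2)
    refine h3.trans (le_of_eq ?_)
    rw [integral_const]
    simp
  · unfold em
    rw [integral_integral_swap hi]
    have h4 : ∀ y : Y, ∫ x, h (τ (c y) x) ∂μ = ∫ x, h x ∂μ := by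
      intro y
      have h5 := hτ.mp (c y)
      rw [← integral_map (φ := τ (c y)) (f := h) h5.measurable.aemeasurable
        (by rw [h5.map_eq]; exact hm.aestronglyMeasurable), h5.map_eq]
    simp only [h4]
    rw [integral_const]
    simp

/-- the difference of two continuous averages -/
lemma cavg_diff [IsProbabilityMeasure μ] {k n : ℕ} {τ : Fin n → ℝ → X → X} (hτ : ∀ j, IsFlow μ (τ j))
    (C : Fin n → Fin k → ℝ) {v : Y → Fin n → ℝ} (hv : Measurable v) {f g : Fin n → X → ℂ} (hf : ∀ j, Measurable (f j)) (hg : ∀ j, Measurable (g j))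
    (hf1 : ∀ j x, ‖f j x‖ ≤ 1) (hg1 : ∀ j x, ‖g j x‖ ≤ 1) (M : Fin k → ℕ)
    (x : X) : ‖cavg ν v τ C f M x - cavg ν v τ C g M x‖ ≤
      ∑ j, ravg M fun m => em ν (τ j) (fun y => v y j) (fun y => ‖f j y - g j y‖) (τ j (lin (C j) m) x) := by
  have hmo : ∀ (u : Fin n → X → ℂ), (∀ j, Measurable (u j)) → ∀ m : Fin k → ℕ,
      Measurable fun y : Y => ∏ j, u j (τ j (lin (C j) m + v y j) x) := by
    intro u hu m
    refine Finset.measurable_prod _ fun j _ => (hu j).comp ((hτ j).meas.comp (Measurable.prodMk ?_ measurable_const))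
    exact measurable_const.add ((measurable_pi_apply j).comp hv)
  have hio : ∀ (u : Fin n → X → ℂ), (∀ j, Measurable (u j)) → (∀ j x, ‖u j x‖ ≤ 1) → ∀ m : Fin k → ℕ,
      Integrable (fun y : Y => ∏ j, u j (τ j (lin (C j) m + v y j) x)) ν := fun u hu hu1 m =>
    Integrable.of_bound (C := 1) (hmo u hu m).aestronglyMeasurable
      (ae_of_all _ fun y => norm_prod_le_one _ _ fun j _ => hu1 j _)
  unfold cavg
  rw [bavg_sub, ← rsum]
  refine (norm_bavg_le _ _).trans (rmono M fun m => ?_)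
  rw [← integral_sub (hio f hf hf1 m) (hio g hg hg1 m)]
  have hei : ∀ j ∈ (univ : Finset (Fin n)), Integrable (fun y : Y => ‖f j (τ j (lin (C j) m + v y j) x) -
      g j (τ j (lin (C j) m + v y j) x)‖) ν := by
    intro j _
    have hjm : ∀ q : X → ℂ, Measurable q → Measurable fun y : Y => q (τ j (lin (C j) m + v y j) x) :=
      fun q hq => hq.comp ((hτ j).meas.comp (Measurable.prodMk (measurable_const.add ((measurable_pi_apply j).comp hv))
        measurable_const))
    refine Integrable.of_bound (C := 2) (((hjm _ (hf j)).sub (hjm _ (hg j))).norm).aestronglyMeasurable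
      (ae_of_all _ fun y => ?_)
    rw [norm_norm]
    refine (norm_sub_le _ _).trans ?_
    linarith [hf1 j (τ j (lin (C j) m + v y j) x), hg1 j (τ j (lin (C j) m + v y j) x)]
  have e1 : ∑ j, em ν (τ j) (fun y => v y j) (fun y => ‖f j y - g j y‖) (τ j (lin (C j) m) x) =
      ∫ y, ∑ j, ‖f j (τ j (lin (C j) m + v y j) x) - g j (τ j (lin (C j) m + v y j) x)‖ ∂ν := by
    rw [integral_finsetSum _ hei]
    refine sum_congr rfl fun j _ => ?_
    unfold em
    refine integral_congr_ae (ae_of_all _ fun y => ?_)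
    simp only
    rw [← (hτ j).add, add_comm]
  rw [e1]
  refine (norm_integral_le_integral_norm _).trans ?_
  refine integral_mono_of_nonneg (ae_of_all _ fun y => norm_nonneg _) (integrable_finsetSum _ hei)
    (ae_of_all _ fun y => ?_)
  exact prod_diff_c univ _ _ (fun j _ => hf1 j _) fun j _ => hg1 j _

/-- comparison, normalized functions -/
theorem cmp_norm [IsProbabilityMeasure μ] {k n : ℕ} {τ : Fin n → ℝ → X → X} (hτ : ∀ j, IsFlow μ (τ j))
    {C : Fin n → Fin k → ℝ} {v : Y → Fin n → ℝ} (hv : Measurable v)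
    (hD : ∀ (y : Y) (ε : ℝ), 0 < ε → ∃ r : Fin k → ℤ, ∀ j, |lz (C j) r - v y j| < ε)
    {f : Fin n → X → ℂ} (hf : ∀ j, Measurable (f j)) (hf1 : ∀ j x, ‖f j x‖ ≤ 1 / 8) :
    ∀ᵐ x ∂μ, Tendsto (fun M : Fin k → ℕ => bavg M (fun m => ∏ j, f j (τ j (lin (C j) m) x)) -
        cavg ν v τ C f M x) atTop (𝓝 0) := by
  have hf2 : ∀ j x, ‖f j x‖ ≤ 1 / 2 := fun j x => (hf1 j x).trans (by norm_num)
  have hf3 : ∀ j x, ‖f j x‖ ≤ 1 := fun j x => (hf1 j x).trans (by norm_num)
  obtain ⟨d, hd⟩ : ∃ d : ℕ → ℝ, ∀ i, d i = 1 / ((i : ℝ) + 1) := ⟨_, fun i => rfl⟩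
  have hd0 : ∀ i, 0 < d i := fun i => by rw [hd]; positivity
  obtain ⟨g, hg⟩ : ∃ g : ℕ → Fin n → X → ℂ, ∀ i j, g i j = gs (τ j) (f j) (d i) := ⟨_, fun i j => rfl⟩
  have hgm : ∀ i j, Measurable (g i j) := fun i j => by rw [hg]; exact gs_meas (hτ j) (hf j) (hd0 i)
  have hgb : ∀ i j x, ‖g i j x‖ ≤ 1 := fun i j x => by rw [hg]; exact gs_bd (hf2 j) (hd0 i) x
  obtain ⟨E, hE⟩ : ∃ E : ℕ → Fin n → X → ℝ, ∀ i j, E i j = fun x => ‖f j x - g i j x‖ := ⟨_, fun i j => rfl⟩
  have hEm : ∀ i j, Measurable (E i j) := fun i j => by rw [hE]; exact ((hf j).sub (hgm i j)).norm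
  have hEb : ∀ i j x, 0 ≤ E i j x ∧ E i j x ≤ 2 := fun i j x => by
    rw [hE]
    refine ⟨norm_nonneg _, (norm_sub_le _ _).trans ?_⟩
    linarith [hf1 j x, hgb i j x]
  choose H hHi hH0 hHI hHl using fun i j => lim_lin (hτ j) (C j) (hEm i j) (hEb i j)
  have hem := fun i j => em_facts (ν := ν) (hτ j) ((measurable_pi_apply j).comp hv) (hEm i j) (hEb i j)
  choose H' hHi' hH0' hHI' hHl' using fun i j => lim_lin (hτ j) (C j) (hem i j).1 (hem i j).2.1
  obtain ⟨Ψ, hΨ⟩ : ∃ Ψ : ℕ → X → ℝ, ∀ i, Ψ i = fun x => ∑ j, (H i j x + H' i j x) := ⟨_, fun i => rfl⟩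
  have hΨ0 : ∀ i, 0 ≤ᵐ[μ] Ψ i := by
    intro i
    filter_upwards [ae_all_iff.2 (hH0 i), ae_all_iff.2 (hH0' i)] with x hx hx'
    rw [hΨ]
    exact Finset.sum_nonneg fun j _ => add_nonneg (hx j) (hx' j)
  have hΨi : ∀ i, Integrable (Ψ i) μ := fun i => by
    rw [hΨ]
    exact integrable_finsetSum _ fun j _ => (hHi i j).add (hHi' i j)
  have hΨlim : Tendsto (fun i => ∫ x, Ψ i x ∂μ) atTop (𝓝 0) := by
    have h1 : ∀ i, ∫ x, Ψ i x ∂μ = ∑ j, (∫ x, E i j x ∂μ + ∫ x, E i j x ∂μ) := by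
      intro i
      rw [hΨ]
      simp only
      have hi2 : ∀ j ∈ (univ : Finset (Fin n)), Integrable (fun x => H i j x + H' i j x) μ :=
        fun j _ => (hHi i j).add (hHi' i j)
      rw [integral_finsetSum _ hi2]
      refine Finset.sum_congr rfl fun j _ => ?_
      rw [integral_add (hHi i j) (hHi' i j), hHI, hHI', (hem i j).2.2]
    simp only [h1]
    have h3 : ∀ j, Tendsto (fun i => ∫ x, E i j x ∂μ) atTop (𝓝 0) := by
      intro j
      have h3 := er_L1 (μ := μ) (hτ j) (hf j) (hf2 j)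
      refine squeeze_zero (fun i => integral_nonneg fun x => (hEb i j x).1) (fun i => ?_) h3
      rw [hE, ← hd]
      refine integral_mono_of_nonneg (ae_of_all _ fun x => norm_nonneg _) ?_ (ae_of_all _ fun x => ?_)
      · refine Integrable.of_bound (C := 2) (er_meas (hτ j) (hf j) (hd0 i)).aestronglyMeasurable
          (ae_of_all _ fun x => ?_)
        have := er_bd (τ := τ j) (hf2 j) (hd0 i) x
        rw [Real.norm_of_nonneg this.1]
        exact this.2
      · simp only
        rw [hg]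
        exact sub_gs _ _
    have := tendsto_finsetSum (Finset.univ : Finset (Fin n)) fun j _ => (h3 j).add (h3 j)
    simpa using this
  filter_upwards [ae_all_iff.2 fun i => ae_all_iff.2 (hHl i), ae_all_iff.2 fun i => ae_all_iff.2 (hHl' i),
    exists_small hΨ0 hΨi hΨlim] with x hx1 hx2 hx3
  rw [Metric.tendsto_nhds]
  intro ε hε
  obtain ⟨N, hN⟩ := exists_nat_one_div_lt hε
  obtain ⟨i, hi⟩ := hx3 N
  have hrep : Tendsto (fun M : Fin k → ℕ => cavg ν v τ C (g i) M x -
      bavg M (fun m => ∏ j, g i j (τ j (lin (C j) m) x))) atTop (𝓝 0) := by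
    have h := dens_avg (C := C) (R := Set.univ) (w := fun _ => 1) (fun _ => by simp) (fun _ _ _ => rfl)
      (F := fun t => ∏ j, g i j (τ j (t j) x))
      (fun t => norm_prod_le_one _ _ fun j _ => hgb i j _) (K := 2 / d i) (by have := hd0 i; positivity)
      (fun s t => ?_) (ν := ν) (v := v) hv
      (fun y ε hε => ?_)
    · simp only [one_mul] at h
      exact h
    · refine (prod_diff_c univ _ _ (fun j _ => hgb i j _) fun j _ => hgb i j _).trans ?_
      rw [mul_sum]
      refine sum_le_sum fun j _ => ?_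
      rw [hg]
      exact gs_lip (hτ j) (hf j) (hf2 j) (hd0 i) x _ _
    · obtain ⟨r, hr⟩ := hD y ε hε
      exact ⟨r, Set.mem_univ _, hr⟩
  have h1 : Tendsto (fun M : Fin k → ℕ => (∑ j, ravg M fun m => E i j (τ j (lin (C j) m) x)) +
      (‖cavg ν v τ C (g i) M x - bavg M (fun m => ∏ j, g i j (τ j (lin (C j) m) x))‖ +
      ∑ j, ravg M fun m => em ν (τ j) (fun y => v y j) (E i j) (τ j (lin (C j) m) x))) atTop
      (𝓝 (∑ j, H i j x + (0 + ∑ j, H' i j x))) := by
    refine Tendsto.add (tendsto_finsetSum _ fun j _ => hx1 i j) (Tendsto.add ?_ (tendsto_finsetSum _ fun j _ => hx2 i j))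
    have := hrep.norm
    rwa [norm_zero] at this
  have h2 : ∑ j, H i j x + (0 + ∑ j, H' i j x) < ε := by
    rw [hΨ] at hi
    simp only [sum_add_distrib] at hi
    linarith
  filter_upwards [h1.eventually (gt_mem_nhds h2)] with M hM
  rw [dist_zero_right]
  refine lt_of_le_of_lt ?_ hM
  have a1 := avg_diff M (w := fun _ => 1) (fun m => by simp) (a := fun j m => f j (τ j (lin (C j) m) x))
    (b := fun j m => g i j (τ j (lin (C j) m) x)) (fun j m => hf3 j _) (fun j m => hgb i j _)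
  simp only [one_mul] at a1
  have a2 := cavg_diff (ν := ν) hτ C hv hf (hgm i) hf3 (hgb i) M x
  have e1 : ∀ j m, E i j (τ j (lin (C j) m) x) =
      ‖f j (τ j (lin (C j) m) x) - g i j (τ j (lin (C j) m) x)‖ := fun j m => by rw [hE]
  have e2 : ∀ j, E i j = fun y => ‖f j y - g i j y‖ := fun j => by rw [hE]
  simp only [e1]
  simp only [e2]
  have e3 : bavg M (fun m => ∏ j, f j (τ j (lin (C j) m) x)) - cavg ν v τ C f M x =
      (bavg M (fun m => ∏ j, f j (τ j (lin (C j) m) x)) -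
        bavg M (fun m => ∏ j, g i j (τ j (lin (C j) m) x))) +
      (-(cavg ν v τ C (g i) M x - bavg M (fun m => ∏ j, g i j (τ j (lin (C j) m) x))) +
      (-(cavg ν v τ C f M x - cavg ν v τ C (g i) M x))) := by ring
  rw [e3]
  refine (norm_add_le _ _).trans (add_le_add a1 ((norm_add_le _ _).trans (add_le_add ?_ ?_)))
  · rw [norm_neg]
  · rw [norm_neg]
    exact a2

end Pool.Agent.U587.EV
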