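import Pool.Agent.U587.EV.Smo

set_option autoImplicit false

/-!
Linear forms with a dense image of the lattice, at every time: decoupling.
-/

namespace Pool.Agent.U587.EV

open MeasureTheory Filter Finset
open Pool.Agent.Y957.MC (IsFlow flowInv smo smo_lip box bavg lin)
open Pool.Agent.R497.TB (ravg sep)
open Pool.Agent.Y312.MC (smo_meas smo_bdd smo_L1 meas_orb flowInv_le ii_orb condExp_smo inv_of_meas int_bdd)
open Pool.Agent.U587.ET (exists_small prod_diff_c norm_prod_le_one gs er gs_meas gs_bd gs_lip er_L1 sub_gs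
  er_meas er_bd disc_erg)
open Pool.Agent.U587.DX (ce ce_meas ce_bd ce_ae cc cc_meas cc_inv cc_bd cc_ae)
open Pool.Agent.U587.BX (bnorm lim_int sg_iter rmono rsum rconst_le rnonneg)
open Pool.Agent.R780.TB (norm_bavg_le)
open scoped Topology

universe u

variable {X : Type u} [mX : MeasurableSpace X] {μ : Measure X}

/-- long averages of the smoothed function, real functions -/
lemma long_real [IsProbabilityMeasure μ] {τ : ℝ → X → X} (hτ : IsFlow μ τ) {h : X → ℝ} (hh : Measurable h)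
    (hb : ∀ x, |h x| ≤ 1 / 8) {δ : ℝ} (hδ : 0 < δ) :
    Tendsto (fun n : ℕ => ∫ x, |smo τ (smo τ h δ) ((n : ℝ) + 1) x - ce μ τ h x| ∂μ) atTop (𝓝 0) := by
  have hpos' : ∀ k : ℕ, 0 < (k : ℝ) + 1 := fun k => by positivity
  obtain ⟨hs, hhs⟩ : ∃ hs : X → ℝ, hs = smo τ h δ := ⟨_, rfl⟩
  have hhsm : Measurable hs := by rw [hhs]; exact smo_meas hτ hh hδ
  have hhsb : ∀ x, |hs x| ≤ 1 / 8 := fun x => by rw [hhs]; exact smo_bdd hb hδ x
  have ht := Pool.Agent.Y48.MC.flwb X μ τ hs hτ hhsm ⟨1 / 8, hhsb⟩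
  have hcs : μ[h | flowInv τ] =ᵐ[μ] μ[hs | flowInv τ] := by rw [hhs]; exact condExp_smo hτ hh hb hδ
  have hcem : Measurable (ce μ τ h) := (ce_meas τ h).mono (flowInv_le (mX := mX) τ) le_rfl
  have hlim : Tendsto (fun n : ℕ => ∫ x, |smo τ hs ((n : ℝ) + 1) x - ce μ τ h x| ∂μ) atTop
      (𝓝 (∫ _x : X, (0 : ℝ) ∂μ)) := by
    refine tendsto_integral_of_dominated_convergence (fun _ => 1 / 4) ?_ (integrable_const _) ?_ ?_
    · intro n
      exact ((smo_meas hτ hhsm (hpos' n)).sub hcem).abs.aestronglyMeasurable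
    · intro n
      refine ae_of_all _ fun x => ?_
      have e1 := smo_bdd (τ := τ) hhsb (hpos' n) x
      have e2 := ce_bd (μ := μ) τ h x
      rw [Real.norm_eq_abs, abs_abs]
      exact (abs_sub _ _).trans (by linarith)
    · filter_upwards [ht, hcs, ce_ae (μ := μ) (τ := τ) hb] with x hx hx2 hx3
      have e1 : Tendsto (fun n : ℕ => (n : ℝ) + 1) atTop atTop :=
        tendsto_atTop_add_const_right _ _ tendsto_natCast_atTop_atTop
      have e2 := (hx.comp e1).sub (tendsto_const_nhds (x := ce μ τ h x))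
      rw [← hx2, ← hx3, sub_self] at e2
      simpa [Function.comp_def] using e2.abs
  rw [integral_zero, hhs] at hlim
  exact hlim

/-- long averages of the smoothed function -/
lemma long_c [IsProbabilityMeasure μ] {τ : ℝ → X → X} (hτ : IsFlow μ τ) {f : X → ℂ} (hf : Measurable f)
    (hb : ∀ x, ‖f x‖ ≤ 1 / 8) {δ : ℝ} (hδ : 0 < δ) {ε : ℝ} (hε : 0 < ε) :
    ∃ S : ℝ, 0 < S ∧ ∫ x, ‖gs τ (gs τ f δ) S x - cc μ τ f x‖ ∂μ < ε := by
  have hre : ∀ x, |(f x).re| ≤ 1 / 8 := fun x => (Complex.abs_re_le_norm _).trans (hb x)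
  have him : ∀ x, |(f x).im| ≤ 1 / 8 := fun x => (Complex.abs_im_le_norm _).trans (hb x)
  have hrm : Measurable fun y => (f y).re := Complex.measurable_re.comp hf
  have hmm : Measurable fun y => (f y).im := Complex.measurable_im.comp hf
  have h1 := long_real (μ := μ) hτ hrm hre hδ
  have h2 := long_real (μ := μ) hτ hmm him hδ
  have h3 := h1.add h2
  rw [add_zero] at h3
  obtain ⟨n, hn⟩ := (h3.eventually (gt_mem_nhds hε)).exists
  have hpos : 0 < (n : ℝ) + 1 := by positivity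
  refine ⟨(n : ℝ) + 1, hpos, lt_of_le_of_lt ?_ hn⟩
  have er1 : (fun y => (gs τ f δ y).re) = smo τ (fun y => (f y).re) δ := by
    funext y
    unfold gs
    simp
  have er2 : (fun y => (gs τ f δ y).im) = smo τ (fun y => (f y).im) δ := by
    funext y
    unfold gs
    simp
  have hI : ∀ (g : X → ℝ), Measurable g → (∀ x, |g x| ≤ 1 / 8) →
      Integrable (fun x => |smo τ (smo τ g δ) ((n : ℝ) + 1) x - ce μ τ g x|) μ := by
    intro g hg hgb
    have hcem : Measurable (ce μ τ g) := (ce_meas τ g).mono (flowInv_le (mX := mX) τ) le_rfl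
    refine Integrable.of_bound (C := 1 / 4)
      ((smo_meas hτ (smo_meas hτ hg hδ) hpos).sub hcem).abs.aestronglyMeasurable (ae_of_all _ fun x => ?_)
    have e1 := smo_bdd (τ := τ) (smo_bdd (τ := τ) hgb hδ) hpos x
    have e2 := ce_bd (μ := μ) τ g x
    rw [Real.norm_eq_abs, abs_abs]
    exact (abs_sub _ _).trans (by linarith)
  rw [← integral_add (hI _ hrm hre) (hI _ hmm him)]
  refine integral_mono_of_nonneg (ae_of_all _ fun x => norm_nonneg _) ((hI _ hrm hre).add (hI _ hmm him))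
    (ae_of_all _ fun x => ?_)
  simp only
  refine (Complex.norm_le_abs_re_add_abs_im _).trans (le_of_eq ?_)
  unfold cc
  rw [gs, er1, er2]
  simp

/-- the difference of averages of products -/
lemma avg_diff {k n : ℕ} (M : Fin k → ℕ) {w : (Fin k → ℕ) → ℂ} (hw : ∀ m, ‖w m‖ ≤ 1)
    {a b : Fin n → (Fin k → ℕ) → ℂ} (ha : ∀ j m, ‖a j m‖ ≤ 1) (hb : ∀ j m, ‖b j m‖ ≤ 1) :
    ‖bavg M (fun m => w m * ∏ j, a j m) - bavg M (fun m => w m * ∏ j, b j m)‖ ≤
      ∑ j, ravg M fun m => ‖a j m - b j m‖ := by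
  rw [bavg_sub, ← rsum]
  refine (norm_bavg_le _ _).trans (rmono M fun m => ?_)
  rw [← mul_sub, norm_mul]
  have h3 := prod_diff_c univ (fun j => a j m) (fun j => b j m) (fun j _ => ha j _) (fun j _ => hb j _)
  calc ‖w m‖ * ‖∏ j, a j m - ∏ j, b j m‖ ≤ 1 * ∑ j, ‖a j m - b j m‖ :=
        mul_le_mul (hw m) h3 (norm_nonneg _) zero_le_one
    _ = _ := one_mul _

/-- decoupling, normalized functions -/
theorem dec_norm [IsProbabilityMeasure μ] {k n : ℕ} {τ : Fin n → ℝ → X → X} (hτ : ∀ j, IsFlow μ (τ j))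
    {C : Fin n → Fin k → ℝ} {R : Set (Fin k → ℤ)} {J : Finset (Fin n)}
    (hR : ∀ j0 ∈ J, ∀ s ε : ℝ, 0 < ε → ∃ r ∈ R, ∀ j, |lz (C j) r - (Pi.single j0 s : Fin n → ℝ) j| < ε)
    {f : Fin n → X → ℂ} (hf : ∀ j, Measurable (f j)) (hf1 : ∀ j x, ‖f j x‖ ≤ 1 / 8) :
    ∀ᵐ x ∂μ, ∀ w : (Fin k → ℤ) → ℂ, (∀ z, ‖w z‖ ≤ 1) → (∀ r ∈ R, ∀ z, w (z + r) = w z) →
      Tendsto (fun M : Fin k → ℕ => bavg M (fun m => w (zc m) * ∏ j, f j (τ j (lin (C j) m) x)) -
        bavg M (fun m => w (zc m) * ∏ j, (if j ∈ J then cc μ (τ j) (f j) x else f j (τ j (lin (C j) m) x))))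
        atTop (𝓝 0) := by
  have hf2 : ∀ j x, ‖f j x‖ ≤ 1 / 2 := fun j x => (hf1 j x).trans (by norm_num)
  have hf3 : ∀ j x, ‖f j x‖ ≤ 1 := fun j x => (hf1 j x).trans (by norm_num)
  obtain ⟨d, hd⟩ : ∃ d : ℕ → ℝ, ∀ i, d i = 1 / ((i : ℝ) + 1) := ⟨_, fun i => rfl⟩
  have hd0 : ∀ i, 0 < d i := fun i => by rw [hd]; positivity
  obtain ⟨g, hg⟩ : ∃ g : ℕ → Fin n → X → ℂ, ∀ i j, g i j = gs (τ j) (f j) (d i) := ⟨_, fun i j => rfl⟩
  have hgm : ∀ i j, Measurable (g i j) := fun i j => by rw [hg]; exact gs_meas (hτ j) (hf j) (hd0 i)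
  have hgb : ∀ i j x, ‖g i j x‖ ≤ 1 / 2 := fun i j x => by
    rw [hg]
    unfold gs
    have h1 := smo_bdd (τ := τ j) (h := fun y => (f j y).re) (C := 1 / 8)
      (fun x => (Complex.abs_re_le_norm _).trans (hf1 j x)) (hd0 i) x
    have h2 := smo_bdd (τ := τ j) (h := fun y => (f j y).im) (C := 1 / 8)
      (fun x => (Complex.abs_im_le_norm _).trans (hf1 j x)) (hd0 i) x
    refine (norm_add_le _ _).trans ?_
    rw [norm_mul, Complex.norm_I, mul_one, Complex.norm_real, Complex.norm_real, Real.norm_eq_abs, Real.norm_eq_abs]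
    linarith
  have hS : ∀ i j, ∃ S : ℝ, 0 < S ∧ ∫ x, ‖gs (τ j) (g i j) S x - cc μ (τ j) (f j) x‖ ∂μ < d i := fun i j => by
    rw [hg]
    exact long_c (hτ j) (hf j) (hf1 j) (hd0 i) (hd0 i)
  choose S hS0 hSI using hS
  obtain ⟨G, hG⟩ : ∃ G : ℕ → Fin n → X → ℂ, ∀ i j, G i j = gs (τ j) (g i j) (S i j) := ⟨_, fun i j => rfl⟩
  have hGm : ∀ i j, Measurable (G i j) := fun i j => by rw [hG]; exact gs_meas (hτ j) (hgm i j) (hS0 i j)
  have hGb : ∀ i j x, ‖G i j x‖ ≤ 1 := fun i j x => by rw [hG]; exact gs_bd (hgb i j) (hS0 i j) x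
  have hcb : ∀ j x, ‖cc μ (τ j) (f j) x‖ ≤ 1 := fun j x => (cc_bd _ _ x).trans (by norm_num)
  have hcm : ∀ j, Measurable (cc μ (τ j) (f j)) := fun j => cc_meas _ _
  obtain ⟨E, hE⟩ : ∃ E : ℕ → Fin n → X → ℝ, ∀ i j, E i j = fun x => ‖f j x - g i j x‖ := ⟨_, fun i j => rfl⟩
  obtain ⟨E', hE'⟩ : ∃ E' : ℕ → Fin n → X → ℝ, ∀ i j, E' i j = fun x => ‖G i j x - cc μ (τ j) (f j) x‖ :=
    ⟨_, fun i j => rfl⟩
  have hEm : ∀ i j, Measurable (E i j) := fun i j => by rw [hE]; exact ((hf j).sub (hgm i j)).norm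
  have hE'm : ∀ i j, Measurable (E' i j) := fun i j => by rw [hE']; exact ((hGm i j).sub (hcm j)).norm
  have hEb : ∀ i j x, 0 ≤ E i j x ∧ E i j x ≤ 2 := fun i j x => by
    rw [hE]
    refine ⟨norm_nonneg _, (norm_sub_le _ _).trans ?_⟩
    linarith [hf1 j x, hgb i j x]
  have hE'b : ∀ i j x, 0 ≤ E' i j x ∧ E' i j x ≤ 2 := fun i j x => by
    rw [hE']
    refine ⟨norm_nonneg _, (norm_sub_le _ _).trans ?_⟩
    linarith [hGb i j x, hcb j x]
  choose H hHi hH0 hHI hHl using fun i j => lim_lin (hτ j) (C j) (hEm i j) (hEb i j)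
  choose H' hHi' hH0' hHI' hHl' using fun i j => lim_lin (hτ j) (C j) (hE'm i j) (hE'b i j)
  obtain ⟨Ψ, hΨ⟩ : ∃ Ψ : ℕ → X → ℝ, ∀ i, Ψ i = fun x => ∑ j, ((H i j x + H i j x) + H' i j x) := ⟨_, fun i => rfl⟩
  have hΨ0 : ∀ i, 0 ≤ᵐ[μ] Ψ i := by
    intro i
    filter_upwards [ae_all_iff.2 (hH0 i), ae_all_iff.2 (hH0' i)] with x hx hx'
    rw [hΨ]
    exact Finset.sum_nonneg fun j _ => add_nonneg (add_nonneg (hx j) (hx j)) (hx' j)
  have hΨi : ∀ i, Integrable (Ψ i) μ := fun i => by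
    rw [hΨ]
    exact integrable_finsetSum _ fun j _ => ((hHi i j).add (hHi i j)).add (hHi' i j)
  have hdl : Tendsto d atTop (𝓝 0) := by
    have := tendsto_one_div_add_atTop_nhds_zero_nat (𝕜 := ℝ)
    refine this.congr fun i => ?_
    rw [hd]
  have hΨlim : Tendsto (fun i => ∫ x, Ψ i x ∂μ) atTop (𝓝 0) := by
    have h1 : ∀ i, ∫ x, Ψ i x ∂μ = ∑ j, ((∫ x, E i j x ∂μ + ∫ x, E i j x ∂μ) + ∫ x, E' i j x ∂μ) := by
      intro i
      rw [hΨ]
      simp only
      have hi2 : ∀ j ∈ (univ : Finset (Fin n)), Integrable (fun x => (H i j x + H i j x) + H' i j x) μ :=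
        fun j _ => ((hHi i j).add (hHi i j)).add (hHi' i j)
      rw [integral_finsetSum _ hi2]
      refine Finset.sum_congr rfl fun j _ => ?_
      have hi3 : Integrable (fun x => H i j x + H i j x) μ := (hHi i j).add (hHi i j)
      rw [integral_add hi3 (hHi' i j), integral_add (hHi i j) (hHi i j), hHI, hHI']
    simp only [h1]
    have h2 : ∀ j ∈ (univ : Finset (Fin n)),
        Tendsto (fun i => (∫ x, E i j x ∂μ + ∫ x, E i j x ∂μ) + ∫ x, E' i j x ∂μ) atTop (𝓝 ((0 + 0) + 0)) := by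
      intro j _
      have h2a : Tendsto (fun i => ∫ x, E i j x ∂μ) atTop (𝓝 0) := ?_
      · refine Tendsto.add (h2a.add h2a) ?_
        refine squeeze_zero (fun i => integral_nonneg fun x => (hE'b i j x).1) (fun i => ?_) hdl
        rw [hE']
        simp only
        rw [hG]
        exact (hSI i j).le
      · have h3 := er_L1 (μ := μ) (hτ j) (hf j) (hf2 j)
        refine squeeze_zero (fun i => integral_nonneg fun x => (hEb i j x).1) (fun i => ?_) h3
        rw [hE, ← hd]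
        refine integral_mono_of_nonneg (ae_of_all _ fun x => norm_nonneg _) ?_ (ae_of_all _ fun x => ?_)
        · refine Integrable.of_bound (C := 2) (er_meas (hτ j) (hf j) (hd0 i)).aestronglyMeasurable
            (ae_of_all _ fun x => ?_)
          have := er_bd (τ := τ j) (hf2 j) (hd0 i) x
          rw [Real.norm_of_nonneg this.1]
          exact this.2
        · simp only
          rw [hg]
          exact sub_gs _ _
    have := tendsto_finsetSum (Finset.univ : Finset (Fin n)) h2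
    simpa using this
  filter_upwards [ae_all_iff.2 fun i => ae_all_iff.2 (hHl i), ae_all_iff.2 fun i => ae_all_iff.2 (hHl' i),
    exists_small hΨ0 hΨi hΨlim] with x hx1 hx2 hx3
  intro w hw1 hwR
  rw [Metric.tendsto_nhds]
  intro ε hε
  obtain ⟨N, hN⟩ := exists_nat_one_div_lt hε
  obtain ⟨i, hi⟩ := hx3 N
  have hrep := rep_all hτ hR hw1 hwR (u := g i) (hgb i) (L := fun _ => 2 / d i) (fun j s t x => by
    rw [hg]
    exact gs_lip (hτ j) (hf j) (hf2 j) (hd0 i) x s t) (hgm i) (hS0 i) x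
  have h1 : Tendsto (fun M : Fin k → ℕ => (∑ j, ravg M fun m => E i j (τ j (lin (C j) m) x)) +
      (‖bavg M (fun m => w (zc m) * ∏ j, (if j ∈ J then gs (τ j) (g i j) (S i j) else g i j) (τ j (lin (C j) m) x)) -
      bavg M (fun m => w (zc m) * ∏ j, g i j (τ j (lin (C j) m) x))‖ +
      ((∑ j, ravg M fun m => E i j (τ j (lin (C j) m) x)) + ∑ j, ravg M fun m => E' i j (τ j (lin (C j) m) x)))) atTop
      (𝓝 (∑ j, H i j x + (0 + (∑ j, H i j x + ∑ j, H' i j x)))) := by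
    have a0 := tendsto_finsetSum (Finset.univ : Finset (Fin n)) fun j _ => hx1 i j
    have a1 := tendsto_finsetSum (Finset.univ : Finset (Fin n)) fun j _ => hx2 i j
    refine Tendsto.add a0 (Tendsto.add ?_ (Tendsto.add a0 a1))
    have := hrep.norm
    rwa [norm_zero] at this
  have h2 : ∑ j, H i j x + (0 + (∑ j, H i j x + ∑ j, H' i j x)) < ε := by
    rw [hΨ] at hi
    simp only [sum_add_distrib] at hi
    linarith
  filter_upwards [h1.eventually (gt_mem_nhds h2)] with M hM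
  rw [dist_zero_right]
  refine lt_of_le_of_lt ?_ hM
  have a1 := avg_diff M (w := fun m => w (zc m)) (fun m => hw1 _) (a := fun j m => f j (τ j (lin (C j) m) x))
    (b := fun j m => g i j (τ j (lin (C j) m) x)) (fun j m => hf3 j _) (fun j m => (hgb i j _).trans (by norm_num))
  have a2 := avg_diff M (w := fun m => w (zc m)) (fun m => hw1 _)
    (a := fun j m => (if j ∈ J then gs (τ j) (g i j) (S i j) else g i j) (τ j (lin (C j) m) x))
    (b := fun j m => if j ∈ J then cc μ (τ j) (f j) x else f j (τ j (lin (C j) m) x))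
    (fun j m => by
      by_cases hj : j ∈ J
      · simp only [hj, if_true, ← hG]
        exact hGb i j _
      · simp only [hj, if_false]
        exact (hgb i j _).trans (by norm_num))
    (fun j m => by
      by_cases hj : j ∈ J
      · simp only [hj, if_true]
        exact hcb j _
      · simp only [hj, if_false]
        exact hf3 j _)
  have e1 : ∀ j m, E i j (τ j (lin (C j) m) x) =
      ‖f j (τ j (lin (C j) m) x) - g i j (τ j (lin (C j) m) x)‖ := fun j m => by rw [hE]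
  have e2 : ∀ j m, E' i j (τ j (lin (C j) m) x) =
      ‖G i j (τ j (lin (C j) m) x) - cc μ (τ j) (f j) x‖ := fun j m => by rw [hE']; simp only; rw [cc_inv]
  have a3 : ∑ j, (ravg M fun m => ‖(if j ∈ J then gs (τ j) (g i j) (S i j) else g i j) (τ j (lin (C j) m) x) -
      (if j ∈ J then cc μ (τ j) (f j) x else f j (τ j (lin (C j) m) x))‖) ≤
      (∑ j, ravg M fun m => E i j (τ j (lin (C j) m) x)) + ∑ j, ravg M fun m => E' i j (τ j (lin (C j) m) x) := by
    rw [← sum_add_distrib]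
    refine sum_le_sum fun j _ => ?_
    by_cases hj : j ∈ J
    · simp only [hj, if_true, e2, hG]
      have := rnonneg M (h := fun m => E i j (τ j (lin (C j) m) x)) fun m => (hEb i j _).1
      linarith
    · simp only [hj, if_false]
      have h5 := rnonneg M (h := fun m => E' i j (τ j (lin (C j) m) x)) fun m => (hE'b i j _).1
      have h6 : (ravg M fun m => ‖g i j (τ j (lin (C j) m) x) - f j (τ j (lin (C j) m) x)‖) =
          ravg M fun m => E i j (τ j (lin (C j) m) x) := by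
        congr 1
        funext m
        rw [e1, norm_sub_rev]
      rw [h6]
      linarith
  have e4 : (∑ j, ravg M fun m => E i j (τ j (lin (C j) m) x)) =
      ∑ j, ravg M fun m => ‖f j (τ j (lin (C j) m) x) - g i j (τ j (lin (C j) m) x)‖ := by simp only [e1]
  rw [← e4] at a1
  obtain ⟨A0, hA0⟩ : ∃ z : ℂ, z = bavg M (fun m => w (zc m) * ∏ j, f j (τ j (lin (C j) m) x)) := ⟨_, rfl⟩
  obtain ⟨A1, hA1⟩ : ∃ z : ℂ, z = bavg M (fun m => w (zc m) * ∏ j, g i j (τ j (lin (C j) m) x)) := ⟨_, rfl⟩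
  obtain ⟨A2, hA2⟩ : ∃ z : ℂ, z = bavg M (fun m => w (zc m) *
      ∏ j, (if j ∈ J then gs (τ j) (g i j) (S i j) else g i j) (τ j (lin (C j) m) x)) := ⟨_, rfl⟩
  obtain ⟨A3, hA3⟩ : ∃ z : ℂ, z = bavg M (fun m => w (zc m) *
      ∏ j, (if j ∈ J then cc μ (τ j) (f j) x else f j (τ j (lin (C j) m) x))) := ⟨_, rfl⟩
  rw [← hA0, ← hA1] at a1
  rw [← hA2, ← hA3] at a2
  rw [← hA0, ← hA3, ← hA2, ← hA1]
  have e3 : A0 - A3 = (A0 - A1) + (-(A2 - A1) + (A2 - A3)) := by ring
  rw [e3]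
  refine (norm_add_le _ _).trans (add_le_add a1 ((norm_add_le _ _).trans (add_le_add ?_ (a2.trans a3))))
  rw [norm_neg]

end Pool.Agent.U587.EV
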