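import Pool.Agent.U587.EV.Cmp
import Pool.Agent.R497.Er.Prog

set_option autoImplicit false

/-!
One linear form: averages over boxes of averages over intervals, and one parameter averages.
-/

namespace Pool.Agent.U587.EV

open MeasureTheory Filter Finset
open Pool.Agent.Y957.MC (box bavg lin TZ)
open Pool.Agent.Y86.MC (bm bm_le lin_update mem_box)
open Pool.Agent.R497.Er (mean_close box_nonempty tendsto_of_TZ')
open scoped Topology

/-- the uniform distribution on `(-1, 0]` -/
noncomputable def ui : Measure ℝ := volume.restrict (Set.Ioc (-1) 0)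

lemma ui_prob : IsProbabilityMeasure ui := by
  constructor
  unfold ui
  rw [Measure.restrict_apply_univ, Real.volume_Ioc]
  norm_num

/-- the primitive -/
noncomputable def pr (G : ℝ → ℂ) (V : ℝ) : ℂ := ∫ v in (0 : ℝ)..V, G v

variable {G : ℝ → ℂ} {K : ℝ}

lemma ii_of (hG : Measurable G) (hK : ∀ v, ‖G v‖ ≤ K) (a b : ℝ) : IntervalIntegrable G volume a b := by
  refine (intervalIntegrable_const (c := K)).mono_fun' hG.aestronglyMeasurable ?_
  filter_upwards with v
  exact hK v

lemma pr_sub (hG : Measurable G) (hK : ∀ v, ‖G v‖ ≤ K) (a b : ℝ) : pr G b - pr G a = ∫ v in a..b, G v := by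
  unfold pr
  exact intervalIntegral.integral_interval_sub_left (ii_of hG hK _ _) (ii_of hG hK _ _)

lemma pr_lip (hG : Measurable G) (hK : ∀ v, ‖G v‖ ≤ K) (a b : ℝ) : ‖pr G b - pr G a‖ ≤ K * |b - a| := by
  rw [pr_sub hG hK]
  exact intervalIntegral.norm_integral_le_of_norm_le_const fun v _ => hK v

lemma pr_zero : pr G 0 = 0 := by
  unfold pr
  exact intervalIntegral.integral_same

lemma inner_sum (hG : Measurable G) (hK : ∀ v, ‖G v‖ ≤ K) {c : ℝ} (hc : 0 < c) (b : ℝ) (N : ℕ) :
    ∑ n ∈ Icc 1 N, ∫ y, G (c * n + b + c * y) ∂ui = (1 / (c : ℂ)) * (pr G (b + c * N) - pr G b) := by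
  have hcc : (c : ℂ) ≠ 0 := by exact_mod_cast hc.ne'
  have h1 : ∀ n : ℕ, ∫ y, G (c * n + b + c * y) ∂ui = (1 / (c : ℂ)) * (pr G (b + c * n) - pr G (b + c * ((n : ℝ) - 1))) := by
    intro n
    unfold ui
    rw [← intervalIntegral.integral_of_le (by norm_num), intervalIntegral.integral_comp_add_mul _ hc.ne',
      pr_sub hG hK]
    rw [show c * (n : ℝ) + b + c * (-1) = b + c * ((n : ℝ) - 1) by ring,
      show c * (n : ℝ) + b + c * 0 = b + c * n by ring]
    rw [Complex.real_smul]
    push_cast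
    rw [one_div]
  induction N with
  | zero => simp
  | succ N ih =>
    rw [sum_Icc_succ_top (by omega), ih, h1]
    push_cast
    rw [add_sub_cancel_right]
    ring

/-- the mean of the averages over intervals -/
lemma D_split (hG : Measurable G) (hK : ∀ v, ‖G v‖ ≤ K) {k : ℕ} {c : Fin k → ℝ} (hc : ∀ i, 0 < c i) (i : Fin k)
    {M : Fin k → ℕ} (hM : ∀ l, 1 ≤ M l) :
    bavg M (fun m => ∫ y, G (lin c m + c i * y) ∂ui) = (1 / ((box (Function.update M i 1)).card : ℂ)) *
      ∑ m ∈ box (Function.update M i 1),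
        (1 / ((c i * M i : ℝ) : ℂ)) * (pr G (bm c i m + c i * M i) - pr G (bm c i m)) := by
  unfold bavg
  rw [Pool.Agent.Y86.MC.sum_box i, Pool.Agent.Y86.MC.card_split i M]
  have h1 : ∀ m ∈ box (Function.update M i 1), ∑ n ∈ Icc 1 (M i), ∫ y, G (lin c (Function.update m i n) + c i * y) ∂ui =
      (1 / (c i : ℂ)) * (pr G (bm c i m + c i * M i) - pr G (bm c i m)) := by
    intro m _
    simp only [lin_update]
    exact inner_sum hG hK (hc i) _ _
  rw [sum_congr rfl h1, ← mul_sum, ← mul_sum]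
  have h2 : (M i : ℂ) ≠ 0 := by exact_mod_cast (Nat.one_le_iff_ne_zero.1 (hM i))
  have h3 : ((box (Function.update M i 1)).card : ℂ) ≠ 0 := by
    have : (box (Function.update M i 1)).Nonempty := box_nonempty fun l => by
      by_cases hl : l = i
      · subst hl; rw [Function.update_self]
      · rw [Function.update_of_ne hl]; exact hM l
    exact_mod_cast (card_pos.2 this).ne'
  have h4 : (c i : ℂ) ≠ 0 := by exact_mod_cast (hc i).ne'
  push_cast
  field_simp

/-- linear bound for the primitive -/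
lemma prim_bound (hG : Measurable G) (hK : ∀ v, ‖G v‖ ≤ K) {L : ℂ}
    (h : Tendsto (fun V : ℝ => (1 / (V : ℂ)) * pr G V) atTop (𝓝 L)) {η : ℝ} (hη : 0 < η) :
    ∃ B : ℝ, 0 ≤ B ∧ ∀ V : ℝ, 0 ≤ V → ‖pr G V - L * V‖ ≤ η * V + B := by
  obtain ⟨V1, hV1⟩ := Metric.tendsto_atTop.1 h η hη
  have hK0 : 0 ≤ K := (norm_nonneg _).trans (hK 0)
  obtain ⟨V0, hV0⟩ : ∃ V0 : ℝ, V0 = max V1 1 := ⟨_, rfl⟩
  have hV0p : 0 < V0 := by rw [hV0]; exact lt_of_lt_of_le one_pos (le_max_right _ _)
  refine ⟨(K + ‖L‖) * V0, by positivity, fun V hV => ?_⟩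
  rcases le_total V V0 with h1 | h1
  · have h2 : ‖pr G V‖ ≤ K * V := by
      have := pr_lip hG hK 0 V
      rwa [pr_zero, sub_zero, sub_zero, abs_of_nonneg hV] at this
    calc ‖pr G V - L * V‖ ≤ ‖pr G V‖ + ‖L * V‖ := norm_sub_le _ _
      _ ≤ K * V + ‖L‖ * V := by
          refine add_le_add h2 ?_
          rw [norm_mul, Complex.norm_real, Real.norm_of_nonneg hV]
      _ ≤ (K + ‖L‖) * V0 := by
          rw [← add_mul]
          exact mul_le_mul_of_nonneg_left h1 (by positivity)
      _ ≤ η * V + (K + ‖L‖) * V0 := by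
          have : 0 ≤ η * V := by positivity
          linarith
  · have hVp : 0 < V := hV0p.trans_le h1
    have hVc : (V : ℂ) ≠ 0 := by exact_mod_cast hVp.ne'
    have h2 := hV1 V ((le_max_left _ _).trans (hV0 ▸ h1))
    rw [dist_eq_norm] at h2
    have h3 : pr G V - L * V = V * ((1 / (V : ℂ)) * pr G V - L) := by
      field_simp
    rw [h3, norm_mul, Complex.norm_real, Real.norm_of_nonneg hV]
    have h4 : 0 ≤ (K + ‖L‖) * V0 := by positivity
    nlinarith

/-- from one parameter to boxes -/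
theorem box_of_cont (hG : Measurable G) (hK : ∀ v, ‖G v‖ ≤ K) {k : ℕ} (hk : 0 < k) {c : Fin k → ℝ}
    (hc : ∀ i, 0 < c i)
    (hA : ∀ i, Tendsto (fun M : Fin k → ℕ => bavg M (fun m => G (lin c m)) -
      bavg M (fun m => ∫ y, G (lin c m + c i * y) ∂ui)) atTop (𝓝 0)) {L : ℂ}
    (h : Tendsto (fun V : ℝ => (1 / (V : ℂ)) * pr G V) atTop (𝓝 L)) :
    Tendsto (fun M : Fin k → ℕ => bavg M (fun m => G (lin c m))) atTop (𝓝 L) := by
  have hH : Tendsto (fun M : Fin k → ℕ => bavg M (fun m => G (lin c m)) - L) atTop (𝓝 0) := by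
    refine tendsto_of_TZ' hk fun i => ?_
    intro ε hε
    obtain ⟨C1, hC1⟩ : ∃ C1 : ℝ, C1 = ∑ l, |c l| + 1 := ⟨_, rfl⟩
    have hC1p : 0 < C1 := by
      rw [hC1]
      have : 0 ≤ ∑ l, |c l| := sum_nonneg fun l _ => abs_nonneg _
      linarith
    have hci := hc i
    obtain ⟨η, hη⟩ : ∃ η : ℝ, η = ε / (4 * (1 + 2 * C1 / c i)) := ⟨_, rfl⟩
    have hη0 : 0 < η := by rw [hη]; positivity
    obtain ⟨B, hB0, hB⟩ := prim_bound hG hK h hη0
    obtain ⟨M1, hM1⟩ := Metric.tendsto_atTop.1 (hA i) (ε / 2) (half_pos hε)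
    obtain ⟨N1, hN1⟩ := exists_nat_ge (8 * B / (c i * ε))
    refine ⟨max (univ.sup M1) (max N1 1), fun M hM hMi => ?_⟩
    have hMM : M1 ≤ M := fun l => (le_sup (f := M1) (mem_univ l)).trans ((le_max_left _ _).trans (hM l))
    have hMN : N1 ≤ M i := (le_max_left _ _).trans ((le_max_right _ _).trans (hM i))
    have hM1' : ∀ l, 1 ≤ M l := fun l => (le_max_right _ _).trans ((le_max_right _ _).trans (hM l))
    have hMp : (0 : ℝ) < M i := by exact_mod_cast (hM1' i)
    have h1 := hM1 M hMM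
    rw [dist_zero_right] at h1
    have h2 : ‖bavg M (fun m => ∫ y, G (lin c m + c i * y) ∂ui) - L‖ ≤ ε / 2 := by
      rw [D_split hG hK hc i hM1']
      refine mean_close _ (box_nonempty fun l => ?_) _ _ _ fun m hm => ?_
      · by_cases hl : l = i
        · subst hl; rw [Function.update_self]
        · rw [Function.update_of_ne hl]; exact hM1' l
      · have hb0 : 0 ≤ bm c i m := by
          unfold bm
          exact sum_nonneg fun l _ => mul_nonneg (hc l).le (Nat.cast_nonneg _)
        have hb1 : bm c i m ≤ C1 * M i := by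
          rw [hC1]
          exact (le_abs_self _).trans (bm_le c i hMi hm)
        obtain ⟨T, hT⟩ : ∃ T : ℝ, T = c i * M i := ⟨_, rfl⟩
        have hT0 : 0 < T := by rw [hT]; positivity
        have hTc : (T : ℂ) ≠ 0 := by exact_mod_cast hT0.ne'
        rw [← hT]
        have e1 : (1 / (T : ℂ)) * (pr G (bm c i m + T) - pr G (bm c i m)) - L =
            (1 / (T : ℂ)) * ((pr G (bm c i m + T) - L * ((bm c i m + T : ℝ) : ℂ)) -
              (pr G (bm c i m) - L * ((bm c i m : ℝ) : ℂ))) := by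
          push_cast
          field_simp
          ring
        rw [e1, norm_mul, norm_div, norm_one, Complex.norm_real, Real.norm_of_nonneg hT0.le, one_div,
          inv_mul_le_iff₀ hT0]
        have g1 := hB (bm c i m + T) (by positivity)
        have g2 := hB (bm c i m) hb0
        refine (norm_sub_le _ _).trans ((add_le_add g1 g2).trans ?_)
        have g3 : 2 * B ≤ T * (ε / 4) := by
          have g4 : 8 * B / (c i * ε) ≤ M i := hN1.trans (by exact_mod_cast hMN)
          rw [div_le_iff₀ (by positivity)] at g4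
          rw [hT]
          nlinarith
        have g5 : η * (T + 2 * (C1 * M i)) = T * (ε / 4) := by
          rw [hη, hT]
          field_simp
        have g6 : η * (bm c i m + T) + η * bm c i m ≤ η * (T + 2 * (C1 * M i)) := by
          rw [← mul_add]
          exact mul_le_mul_of_nonneg_left (by linarith) hη0.le
        linarith
    have e2 : bavg M (fun m => G (lin c m)) - L = (bavg M (fun m => G (lin c m)) -
      bavg M (fun m => ∫ y, G (lin c m + c i * y) ∂ui)) +
      (bavg M (fun m => ∫ y, G (lin c m + c i * y) ∂ui) - L) := by ring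
    show ‖bavg M (fun m => G (lin c m)) - L‖ ≤ ε
    rw [e2]
    refine (norm_add_le _ _).trans ?_
    linarith
  have := hH.add_const L
  rw [zero_add] at this
  exact this.congr fun M => by ring

/-- from boxes to one parameter -/
theorem cont_of_box (hG : Measurable G) (hK : ∀ v, ‖G v‖ ≤ K) {k : ℕ} (i : Fin k) {c : Fin k → ℝ}
    (hc : ∀ i, 0 < c i)
    (hA : Tendsto (fun M : Fin k → ℕ => bavg M (fun m => G (lin c m)) -
      bavg M (fun m => ∫ y, G (lin c m + c i * y) ∂ui)) atTop (𝓝 0)) {L : ℂ}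
    (h : Tendsto (fun M : Fin k → ℕ => bavg M (fun m => G (lin c m))) atTop (𝓝 L)) :
    Tendsto (fun V : ℝ => (1 / (V : ℂ)) * pr G V) atTop (𝓝 L) := by
  have hK0 : 0 ≤ K := (norm_nonneg _).trans (hK 0)
  have hD : Tendsto (fun M : Fin k → ℕ => bavg M (fun m => ∫ y, G (lin c m + c i * y) ∂ui)) atTop (𝓝 L) := by
    have := h.sub hA
    rw [sub_zero] at this
    refine this.congr fun M => by ring
  rw [Metric.tendsto_atTop]
  intro ε hε
  obtain ⟨M1, hM1⟩ := Metric.tendsto_atTop.1 hD (ε / 2) (half_pos hε)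
  obtain ⟨N0, hN0⟩ : ∃ N0 : ℕ, N0 = (univ.sup M1) + 1 := ⟨_, rfl⟩
  have hM0N : ∀ l, M1 l ≤ N0 := fun l => by
    rw [hN0]
    exact (le_sup (f := M1) (mem_univ l)).trans (Nat.le_succ _)
  have hci := hc i
  obtain ⟨B, hB⟩ : ∃ B : ℝ, B = ∑ l, c l * N0 := ⟨_, rfl⟩
  have hB0 : 0 ≤ B := by rw [hB]; exact sum_nonneg fun l _ => mul_nonneg (hc l).le (Nat.cast_nonneg _)
  -- along multiples of `c i`
  have key : ∀ N : ℕ, N0 ≤ N → ‖(1 / ((c i * N : ℝ) : ℂ)) * pr G (c i * N) - L‖ ≤ ε / 2 + 2 * K * B / (c i * N) := by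
    intro N hN
    have hN1 : 1 ≤ N := by omega
    have hNp : (0 : ℝ) < N := by exact_mod_cast hN1
    obtain ⟨M, hMdef⟩ : ∃ M : Fin k → ℕ, M = Function.update (fun _ : Fin k => N0) i N := ⟨_, rfl⟩
    have hMl : ∀ l, N0 ≤ M l := fun l => by
      rw [hMdef]
      by_cases hl : l = i
      · subst hl; rw [Function.update_self]; exact hN
      · rw [Function.update_of_ne hl]
    have hM1' : ∀ l, 1 ≤ M l := fun l => by have := hMl l; omega
    have hMi : M i = N := by rw [hMdef, Function.update_self]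
    have h1 := hM1 M fun l => (hM0N l).trans (hMl l)
    rw [dist_eq_norm, D_split hG hK hc i hM1', hMi] at h1
    obtain ⟨T, hT⟩ : ∃ T : ℝ, T = c i * N := ⟨_, rfl⟩
    have hT0 : 0 < T := by rw [hT]; positivity
    rw [← hT] at h1 ⊢
    have h2 : ‖(1 / ((box (Function.update M i 1)).card : ℂ)) * ∑ m ∈ box (Function.update M i 1),
        (1 / (T : ℂ)) * (pr G (bm c i m + T) - pr G (bm c i m)) - (1 / (T : ℂ)) * pr G T‖ ≤ 2 * K * B / T := by
      refine mean_close _ (box_nonempty fun l => ?_) _ _ _ fun m hm => ?_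
      · by_cases hl : l = i
        · subst hl; rw [Function.update_self]
        · rw [Function.update_of_ne hl]; exact hM1' l
      · have hb0 : 0 ≤ bm c i m := by
          unfold bm
          exact sum_nonneg fun l _ => mul_nonneg (hc l).le (Nat.cast_nonneg _)
        have hb1 : bm c i m ≤ B := by
          unfold bm
          rw [hB]
          rw [mem_box] at hm
          calc ∑ l ∈ univ.erase i, c l * (m l : ℝ) ≤ ∑ l ∈ univ.erase i, c l * (N0 : ℝ) := by
                refine sum_le_sum fun l hl => mul_le_mul_of_nonneg_left ?_ (hc l).le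
                have h3 := (hm l).2
                rw [Function.update_of_ne (ne_of_mem_erase hl), hMdef, Function.update_of_ne (ne_of_mem_erase hl)] at h3
                exact_mod_cast h3
            _ ≤ _ := sum_le_sum_of_subset_of_nonneg (erase_subset _ _) fun l _ _ =>
                mul_nonneg (hc l).le (Nat.cast_nonneg _)
        have e1 : (1 / (T : ℂ)) * (pr G (bm c i m + T) - pr G (bm c i m)) - (1 / (T : ℂ)) * pr G T =
            (1 / (T : ℂ)) * ((pr G (bm c i m + T) - pr G T) - (pr G (bm c i m) - pr G 0)) := by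
          rw [pr_zero]
          ring
        rw [e1, norm_mul, norm_div, norm_one, Complex.norm_real, Real.norm_of_nonneg hT0.le, one_div,
          inv_mul_le_iff₀ hT0]
        have g1 := pr_lip hG hK T (bm c i m + T)
        have g2 := pr_lip hG hK 0 (bm c i m)
        rw [add_sub_cancel_right, abs_of_nonneg hb0] at g1
        rw [sub_zero, abs_of_nonneg hb0] at g2
        refine (norm_sub_le _ _).trans ((add_le_add g1 g2).trans ?_)
        rw [mul_div_cancel₀ _ hT0.ne']
        nlinarith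
    have e2 : (1 / (T : ℂ)) * pr G T - L = ((1 / ((box (Function.update M i 1)).card : ℂ)) *
        ∑ m ∈ box (Function.update M i 1), (1 / (T : ℂ)) * (pr G (bm c i m + T) - pr G (bm c i m)) - L) -
        ((1 / ((box (Function.update M i 1)).card : ℂ)) * ∑ m ∈ box (Function.update M i 1),
        (1 / (T : ℂ)) * (pr G (bm c i m + T) - pr G (bm c i m)) - (1 / (T : ℂ)) * pr G T) := by ring
    rw [e2]
    refine (norm_sub_le _ _).trans (add_le_add h1.le h2)
  -- all times
  obtain ⟨V0, hV0⟩ : ∃ V0 : ℝ, V0 = c i * (N0 + 1) + c i * 2 + 8 * K * B / ε + 16 * K * c i / ε := ⟨_, rfl⟩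
  have t1 : 0 ≤ 8 * K * B / ε := by positivity
  have t2 : 0 ≤ 16 * K * c i / ε := by positivity
  refine ⟨V0 + 8 * K * B / ε + 1, fun V hV => ?_⟩
  have hVN : c i * (N0 + 1) ≤ V := by
    have : 0 ≤ c i * 2 := by positivity
    linarith
  have hVp : 0 < V := lt_of_lt_of_le (by positivity) hVN
  obtain ⟨N, hN⟩ : ∃ N : ℕ, N = ⌊V / c i⌋₊ := ⟨_, rfl⟩
  have hq0 : 0 ≤ V / c i := by positivity
  have hN1 : c i * N ≤ V := by
    have := Nat.floor_le hq0
    rw [← hN, le_div_iff₀ hci] at this
    linarith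
  have hN2 : V < c i * (N + 1) := by
    have := Nat.lt_floor_add_one (V / c i)
    rw [← hN, div_lt_iff₀ hci] at this
    linarith
  have hN3 : N0 ≤ N := by
    rw [hN]
    refine Nat.le_floor ?_
    rw [le_div_iff₀ hci]
    nlinarith
  have hNp : (0 : ℝ) < N := by
    have : 1 ≤ N := by omega
    exact_mod_cast this
  have h3 := key N hN3
  obtain ⟨T, hT⟩ : ∃ T : ℝ, T = c i * N := ⟨_, rfl⟩
  have hT0 : 0 < T := by rw [hT]; positivity
  have hTc : (T : ℂ) ≠ 0 := by exact_mod_cast hT0.ne'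
  have hVc : (V : ℂ) ≠ 0 := by exact_mod_cast hVp.ne'
  rw [← hT] at h3 hN1
  have hT2 : V - T ≤ c i := by rw [hT]; linarith
  have hT3 : V - c i ≤ T := by linarith
  have h4 : ‖(1 / (V : ℂ)) * pr G V - (1 / (T : ℂ)) * pr G T‖ ≤ 2 * K * c i / V := by
    have e3 : (1 / (V : ℂ)) * pr G V - (1 / (T : ℂ)) * pr G T =
        (1 / (V : ℂ)) * ((pr G V - pr G T) - ((V - T : ℝ) : ℂ) * ((1 / (T : ℂ)) * pr G T)) := by
      push_cast
      field_simp
      ring
    rw [e3, norm_mul, norm_div, norm_one, Complex.norm_real, Real.norm_of_nonneg hVp.le, one_div,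
      inv_mul_le_iff₀ hVp]
    have g1 := pr_lip hG hK T V
    rw [abs_of_nonneg (by linarith)] at g1
    have g2 : ‖(1 / (T : ℂ)) * pr G T‖ ≤ K := by
      rw [norm_mul, norm_div, norm_one, Complex.norm_real, Real.norm_of_nonneg hT0.le, one_div,
        inv_mul_le_iff₀ hT0]
      have := pr_lip hG hK 0 T
      rw [pr_zero, sub_zero, sub_zero, abs_of_nonneg hT0.le] at this
      linarith
    refine (norm_sub_le _ _).trans ?_
    rw [norm_mul, Complex.norm_real, Real.norm_of_nonneg (by linarith : 0 ≤ V - T), mul_div_cancel₀ _ hVp.ne']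
    have g3 : (V - T) * ‖(1 / (T : ℂ)) * pr G T‖ ≤ c i * K :=
      mul_le_mul hT2 g2 (norm_nonneg _) hci.le
    have g4 : K * (V - T) ≤ K * c i := mul_le_mul_of_nonneg_left hT2 hK0
    linarith
  have h5 : 2 * K * c i / V ≤ ε / 8 := by
    rw [div_le_iff₀ hVp]
    have : 16 * K * c i / ε ≤ V := by
      have : 0 ≤ c i * (N0 + 1) + c i * 2 := by positivity
      linarith
    rw [div_le_iff₀ hε] at this
    nlinarith [mul_nonneg hK0 hci.le]
  have h6 : 2 * K * B / T ≤ ε / 4 := by
    rw [div_le_iff₀ hT0]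
    have : 8 * K * B / ε ≤ T := by
      have : 0 ≤ c i * (N0 + 1) := by positivity
      linarith
    rw [div_le_iff₀ hε] at this
    nlinarith [mul_nonneg hK0 hB0]
  rw [dist_eq_norm]
  have e4 : (1 / (V : ℂ)) * pr G V - L = ((1 / (V : ℂ)) * pr G V - (1 / (T : ℂ)) * pr G T) +
      ((1 / (T : ℂ)) * pr G T - L) := by ring
  rw [e4]
  refine lt_of_le_of_lt (norm_add_le _ _) ?_
  linarith

end Pool.Agent.U587.EV
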