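import Pool.Agent.U587.EV.Gen
import Pool.Agent.U587.EV.Box
import Pool.Agent.U587.EV.Det1

set_option autoImplicit false

/-!
Linear forms with a dense image of the lattice, at every time: final forms.
-/

namespace Pool.Agent.U587.EV

open MeasureTheory Filter Finset
open Pool.Agent.Y957.MC (IsFlow flowInv smo smo_lip box bavg lin)
open Pool.Agent.R506.TDFG (exists_version)
open Pool.Agent.R780.TB (norm_bavg_le bavg_add bavg_mul)
open scoped Topology

universe u

variable {X : Type u} [mX : MeasurableSpace X] {μ : Measure X}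

/-- comparison with the continuous averages over boxes -/
theorem cmp_box [IsProbabilityMeasure μ] {k n : ℕ} {τ : Fin n → ℝ → X → X} (hτ : ∀ j, IsFlow μ (τ j))
    {C : Fin n → Fin k → ℝ}
    (hD : ∀ (y : Fin k → ℝ) (ε : ℝ), 0 < ε → ∃ r : Fin k → ℤ, ∀ j, |lz (C j) r - lr (C j) y| < ε)
    {f : Fin n → X → ℂ} (hf : ∀ j, AEStronglyMeasurable (f j) μ) (hfb : ∀ j, ∃ C : ℝ, ∀ᵐ x ∂μ, ‖f j x‖ ≤ C) :
    ∀ᵐ x ∂μ, Tendsto (fun M : Fin k → ℕ => bavg M (fun m => ∏ j, f j (τ j (lin (C j) m) x)) -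
        (1 / ((∏ i, M i : ℕ) : ℂ)) * ∫ z in rbox M, ∏ j, f j (τ j (lr (C j) z) x)) atTop (𝓝 0) := by
  choose g hgm hgb hfg using fun j => exists_version (hf j) (hfb j)
  have := cu_prob k
  have key := cmp_bdd (ν := cu k) hτ (C := C) (v := fun y j => lr (C j) y) (measurable_pi_lambda _ fun j => lr_meas _)
    hD hgm hgb
  have hver2 : ∀ᵐ x ∂μ, ∀ (j : Fin n) (m : Fin k → ℕ), f j (τ j (lin (C j) m) x) = g j (τ j (lin (C j) m) x) := by
    rw [ae_all_iff]
    intro j
    rw [ae_all_iff]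
    intro m
    exact ((hτ j).mp _).quasiMeasurePreserving.ae (hfg j)
  have hver3 : ∀ᵐ x ∂μ, ∀ j : Fin n, ∀ᵐ z : Fin k → ℝ, f j (τ j (lr (C j) z) x) = g j (τ j (lr (C j) z) x) := by
    rw [ae_all_iff]
    intro j
    exact ae_orb (hτ j) (hfg j) volume (lr_meas _)
  choose K hK using hgb
  filter_upwards [key, hver2, hver3] with x hx h2 h3
  refine hx.congr fun M => ?_
  have e1 : bavg M (fun m => ∏ j, g j (τ j (lin (C j) m) x)) = bavg M (fun m => ∏ j, f j (τ j (lin (C j) m) x)) := by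
    congr 1
    funext m
    exact prod_congr rfl fun j _ => (h2 j m).symm
  have e2 : ∫ z in rbox M, ∏ j, f j (τ j (lr (C j) z) x) = ∫ z in rbox M, ∏ j, g j (τ j (lr (C j) z) x) := by
    refine integral_congr_ae (ae_restrict_of_ae ?_)
    filter_upwards [ae_all_iff.2 h3] with z hz
    exact prod_congr rfl fun j _ => hz j
  have hφm : Measurable fun z : Fin k → ℝ => ∏ j, g j (τ j (lr (C j) z) x) :=
    Finset.measurable_prod _ fun j _ => (hgm j).comp ((hτ j).meas.comp ((lr_meas _).prodMk measurable_const))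
  have hφb : ∀ z : Fin k → ℝ, ‖∏ j, g j (τ j (lr (C j) z) x)‖ ≤ ∏ j, K j := by
    intro z
    rw [norm_prod]
    exact Finset.prod_le_prod (fun j _ => norm_nonneg _) fun j _ => hK j _
  rw [e1, e2, rbox_int M hφm hφb]
  unfold cavg
  simp only [lr_add, lr_nat]
  simp only [add_comm]

/-- one irrational form -/
theorem one_form [IsProbabilityMeasure μ] {k n : ℕ} {τ : Fin n → ℝ → X → X} (hτ : ∀ j, IsFlow μ (τ j))
    {c : Fin k → ℝ} (hc : ∀ i, 0 < c i) (hirr : ∃ i l, Irrational (c i / c l))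
    {f : Fin n → X → ℂ} (hf : ∀ j, AEStronglyMeasurable (f j) μ) (hfb : ∀ j, ∃ C : ℝ, ∀ᵐ x ∂μ, ‖f j x‖ ≤ C) :
    ∀ᵐ x ∂μ, ∀ L : ℂ, (Tendsto (fun M : Fin k → ℕ => bavg M (fun m => ∏ j, f j (τ j (lin c m) x))) atTop (𝓝 L) ↔
      Tendsto (fun V : ℝ => (1 / (V : ℂ)) * ∫ v in (0 : ℝ)..V, ∏ j, f j (τ j v x)) atTop (𝓝 L)) := by
  obtain ⟨i0, l0, hil⟩ := hirr
  have hk : 0 < k := lt_of_le_of_lt (Nat.zero_le _) i0.2
  have hdense : ∀ t ε : ℝ, 0 < ε → ∃ r : Fin k → ℤ, |lz c r - t| < ε := by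
    intro t ε hε
    have hd := dense_addSubgroupClosure_pair_iff.2 hil
    obtain ⟨y, hy, hyt⟩ := Metric.dense_iff.1 hd t ε hε
    obtain ⟨p, q, hpq⟩ := AddSubgroup.mem_closure_pair.1 hyt
    refine ⟨Pi.single i0 p + Pi.single l0 q, ?_⟩
    have hs : ∀ (i : Fin k) (p : ℤ), lz c (Pi.single i p) = c i * p := by
      intro i p
      unfold lz
      rw [Finset.sum_eq_single i]
      · rw [Pi.single_eq_same]
      · intro b _ hb
        rw [Pi.single_eq_of_ne hb]
        simp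
      · intro h
        exact absurd (mem_univ _) h
    rw [lz_add, hs, hs]
    rw [Metric.mem_ball, Real.dist_eq] at hy
    have : c i0 * (p : ℝ) + c l0 * (q : ℝ) = y := by
      rw [← hpq]
      simp only [zsmul_eq_mul]
      ring
    rw [this]
    exact hy
  choose g hgm hgb hfg using fun j => exists_version (hf j) (hfb j)
  have := ui_prob
  have key : ∀ᵐ x ∂μ, ∀ i : Fin k, Tendsto (fun M : Fin k → ℕ => bavg M (fun m => ∏ j, g j (τ j (lin c m) x)) -
      cavg ui (fun (y : ℝ) (_ : Fin n) => c i * y) τ (fun _ => c) g M x) atTop (𝓝 0) := by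
    rw [ae_all_iff]
    intro i
    exact cmp_bdd (ν := ui) hτ (C := fun _ => c) (v := fun (y : ℝ) (_ : Fin n) => c i * y)
      (measurable_pi_lambda _ fun j => measurable_id.const_mul _)
      (fun y ε hε => by
        obtain ⟨r, hr⟩ := hdense (c i * y) ε hε
        exact ⟨r, fun j => hr⟩) hgm hgb
  have hver2 : ∀ᵐ x ∂μ, ∀ (j : Fin n) (m : Fin k → ℕ), f j (τ j (lin c m) x) = g j (τ j (lin c m) x) := by
    rw [ae_all_iff]
    intro j
    rw [ae_all_iff]
    intro m
    exact ((hτ j).mp _).quasiMeasurePreserving.ae (hfg j)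
  have hver3 : ∀ᵐ x ∂μ, ∀ j : Fin n, ∀ᵐ v : ℝ, f j (τ j v x) = g j (τ j v x) := by
    rw [ae_all_iff]
    intro j
    exact ae_orb (hτ j) (hfg j) volume measurable_id
  choose K hK using hgb
  filter_upwards [key, hver2, hver3] with x hx h2 h3
  intro L
  have e1 : ∀ M : Fin k → ℕ, bavg M (fun m => ∏ j, f j (τ j (lin c m) x)) =
      bavg M (fun m => (fun v => ∏ j, g j (τ j v x)) (lin c m)) := by
    intro M
    congr 1
    funext m
    exact prod_congr rfl fun j _ => h2 j m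
  have e2 : ∀ V : ℝ, ∫ v in (0 : ℝ)..V, ∏ j, f j (τ j v x) = pr (fun v => ∏ j, g j (τ j v x)) V := by
    intro V
    unfold pr
    refine intervalIntegral.integral_congr_ae ?_
    filter_upwards [ae_all_iff.2 h3] with v hv _
    exact prod_congr rfl fun j _ => hv j
  simp only [e1, e2]
  have hGm : Measurable fun v : ℝ => ∏ j, g j (τ j v x) :=
    Finset.measurable_prod _ fun j _ => (hgm j).comp ((hτ j).meas.comp (measurable_id.prodMk measurable_const))
  have hGb : ∀ v : ℝ, ‖∏ j, g j (τ j v x)‖ ≤ ∏ j, K j := by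
    intro v
    rw [norm_prod]
    exact Finset.prod_le_prod (fun j _ => norm_nonneg _) fun j _ => hK j _
  have hA : ∀ i : Fin k, Tendsto (fun M : Fin k → ℕ => bavg M (fun m => (fun v => ∏ j, g j (τ j v x)) (lin c m)) -
      bavg M (fun m => ∫ y, (fun v => ∏ j, g j (τ j v x)) (lin c m + c i * y) ∂ui)) atTop (𝓝 0) := fun i => hx i
  exact ⟨fun h => cont_of_box hGm hGb ⟨0, hk⟩ hc (hA _) h, fun h => box_of_cont hGm hGb hk hc hA h⟩

end Pool.Agent.U587.EV
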