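import Pool.Agent.U587.EV.Cmp

set_option autoImplicit false

/-!
Linear forms with a dense image of the lattice, at every time: general bounded functions.
-/

namespace Pool.Agent.U587.EV

open MeasureTheory Filter Finset
open Pool.Agent.Y957.MC (IsFlow flowInv smo smo_lip box bavg lin)
open Pool.Agent.Y312.MC (flowInv_le)
open Pool.Agent.U587.DX (cc cc_ae)
open Pool.Agent.R506.TDFG (exists_version)
open Pool.Agent.R780.TB (norm_bavg_le bavg_add bavg_mul)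
open scoped Topology

universe u

variable {X : Type u} [mX : MeasurableSpace X] {μ : Measure X}

/-- decoupling, general functions and weights -/
theorem dec_gen [IsProbabilityMeasure μ] {k n : ℕ} {τ : Fin n → ℝ → X → X} (hτ : ∀ j, IsFlow μ (τ j))
    {C : Fin n → Fin k → ℝ} {R : Set (Fin k → ℤ)} {J : Finset (Fin n)}
    (hR : ∀ j0 ∈ J, ∀ s ε : ℝ, 0 < ε → ∃ r ∈ R, ∀ j, |lz (C j) r - (Pi.single j0 s : Fin n → ℝ) j| < ε)
    {f : Fin n → X → ℂ} (hf : ∀ j, AEStronglyMeasurable (f j) μ) (hfb : ∀ j, ∃ C : ℝ, ∀ᵐ x ∂μ, ‖f j x‖ ≤ C) :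
    ∀ᵐ x ∂μ, ∀ w : (Fin k → ℤ) → ℂ, (∃ K : ℝ, ∀ z, ‖w z‖ ≤ K) → (∀ r ∈ R, ∀ z, w (z + r) = w z) →
      Tendsto (fun M : Fin k → ℕ => bavg M (fun m => w (zc m) * (∏ j, f j (τ j (lin (C j) m) x) -
        ∏ j, (if j ∈ J then (μ[f j | flowInv (τ j)]) x else f j (τ j (lin (C j) m) x))))) atTop (𝓝 0) := by
  classical
  choose g hgm hgb hfg using fun j => exists_version (hf j) (hfb j)
  choose K hK using hgb
  obtain ⟨Q, hQ⟩ : ∃ Q : ℝ, Q = 8 * (∑ j, |K j| + 1) := ⟨_, rfl⟩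
  have hQ0 : 0 < Q := by
    rw [hQ]
    have : 0 ≤ ∑ j, |K j| := Finset.sum_nonneg fun j _ => abs_nonneg _
    linarith
  have hQc : (Q : ℂ) ≠ 0 := by exact_mod_cast hQ0.ne'
  have hgQ : ∀ j x, ‖(Q : ℂ)⁻¹ * g j x‖ ≤ 1 / 8 := by
    intro j x
    rw [norm_mul, norm_inv, Complex.norm_real, Real.norm_of_nonneg hQ0.le, inv_mul_le_iff₀ hQ0]
    have h1 := (hK j x).trans (le_abs_self _)
    have h2 : |K j| ≤ ∑ j, |K j| :=
      Finset.single_le_sum (f := fun j => |K j|) (fun i _ => abs_nonneg _) (Finset.mem_univ j)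
    rw [hQ]
    linarith
  have key := dec_norm hτ hR (f := fun j x => (Q : ℂ)⁻¹ * g j x) (fun j => measurable_const.mul (hgm j)) hgQ
  have hver2 : ∀ᵐ x ∂μ, ∀ (j : Fin n) (m : Fin k → ℕ), f j (τ j (lin (C j) m) x) = g j (τ j (lin (C j) m) x) := by
    rw [ae_all_iff]
    intro j
    rw [ae_all_iff]
    intro m
    exact ((hτ j).mp _).quasiMeasurePreserving.ae (hfg j)
  have hce : ∀ j, cc μ (τ j) (fun x => (Q : ℂ)⁻¹ * g j x) =ᵐ[μ] fun x => (Q : ℂ)⁻¹ * (μ[f j | flowInv (τ j)]) x := by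
    intro j
    have h0 := cc_ae (μ := μ) (τ := τ j) (f := fun x => (Q : ℂ)⁻¹ * g j x) (measurable_const.mul (hgm j)) (hgQ j)
    have h1 : μ[(Q : ℂ)⁻¹ • g j | flowInv (τ j)] =ᵐ[μ] (Q : ℂ)⁻¹ • μ[g j | flowInv (τ j)] := condExp_smul _ _ _
    have h2 : μ[f j | flowInv (τ j)] =ᵐ[μ] μ[g j | flowInv (τ j)] := condExp_congr_ae (hfg j)
    have h3 : (fun x => (Q : ℂ)⁻¹ * g j x) = (Q : ℂ)⁻¹ • g j := rfl
    rw [h3] at h0 ⊢
    filter_upwards [h0, h1, h2] with x hx0 hx1 hx2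
    rw [hx0, hx1, Pi.smul_apply, smul_eq_mul, hx2]
  filter_upwards [key, hver2, ae_all_iff.2 hce] with x hx hv hc
  intro w ⟨K', hK'⟩ hwR
  obtain ⟨Z, hZ⟩ : ∃ Z : ℝ, Z = |K'| + 1 := ⟨_, rfl⟩
  have hZ0 : 0 < Z := by rw [hZ]; positivity
  have hZc : (Z : ℂ) ≠ 0 := by exact_mod_cast hZ0.ne'
  have h1 := hx (fun z => (Z : ℂ)⁻¹ * w z) (fun z => by
    rw [norm_mul, norm_inv, Complex.norm_real, Real.norm_of_nonneg hZ0.le, inv_mul_le_iff₀ hZ0, hZ]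
    linarith [hK' z, le_abs_self K']) (fun r hr z => by rw [hwR r hr z])
  have h2 := h1.const_mul ((Z : ℂ) * (Q : ℂ) ^ n)
  rw [mul_zero] at h2
  refine h2.congr fun M => ?_
  rw [bavg_sub, ← bavg_mul]
  congr 1
  funext m
  have e1 : ∏ j, f j (τ j (lin (C j) m) x) = ∏ j, g j (τ j (lin (C j) m) x) := prod_congr rfl fun j _ => hv j m
  have e2 : ∏ j, (if j ∈ J then cc μ (τ j) (fun x => (Q : ℂ)⁻¹ * g j x) x else
      (Q : ℂ)⁻¹ * g j (τ j (lin (C j) m) x)) = ∏ j, ((Q : ℂ)⁻¹ *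
      (if j ∈ J then (μ[f j | flowInv (τ j)]) x else f j (τ j (lin (C j) m) x))) := by
    refine prod_congr rfl fun j _ => ?_
    by_cases hj : j ∈ J
    · simp only [hj, if_true]
      exact hc j
    · simp only [hj, if_false]
      rw [hv j m]
  rw [e2, e1, prod_mul_distrib, prod_mul_distrib, prod_const, card_univ, Fintype.card_fin]
  have hQn : (Q : ℂ) ^ n ≠ 0 := pow_ne_zero _ hQc
  rw [inv_pow]
  field_simp

/-- almost every orbit -/
lemma ae_orb {τ : ℝ → X → X} [SFinite μ] (hτ : IsFlow μ τ) {f g : X → ℂ} (hfg : f =ᵐ[μ] g) {Y : Type*} [MeasurableSpace Y]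
    (ν : Measure Y) [SFinite ν] {c : Y → ℝ} (hc : Measurable c) :
    ∀ᵐ x ∂μ, ∀ᵐ y ∂ν, f (τ (c y) x) = g (τ (c y) x) := by
  have h1 : Measure.QuasiMeasurePreserving (fun p : X × Y => τ (c p.2) p.1) (μ.prod ν) μ :=
    QuasiMeasurePreserving.prod_of_left (hτ.meas.comp ((hc.comp measurable_snd).prodMk measurable_fst))
      (ae_of_all _ fun y => (hτ.mp (c y)).quasiMeasurePreserving)
  exact Measure.ae_ae_of_ae_prod (h1.ae hfg)

/-- comparison, general bounded measurable functions -/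
theorem cmp_bdd [IsProbabilityMeasure μ] {k n : ℕ} {τ : Fin n → ℝ → X → X} (hτ : ∀ j, IsFlow μ (τ j))
    {C : Fin n → Fin k → ℝ} {Y : Type*} [MeasurableSpace Y] {ν : Measure Y} [IsProbabilityMeasure ν]
    {v : Y → Fin n → ℝ} (hv : Measurable v)
    (hD : ∀ (y : Y) (ε : ℝ), 0 < ε → ∃ r : Fin k → ℤ, ∀ j, |lz (C j) r - v y j| < ε)
    {g : Fin n → X → ℂ} (hgm : ∀ j, Measurable (g j)) (hgb : ∀ j, ∃ K : ℝ, ∀ x, ‖g j x‖ ≤ K) :
    ∀ᵐ x ∂μ, Tendsto (fun M : Fin k → ℕ => bavg M (fun m => ∏ j, g j (τ j (lin (C j) m) x)) -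
        cavg ν v τ C g M x) atTop (𝓝 0) := by
  choose K hK using hgb
  obtain ⟨Q, hQ⟩ : ∃ Q : ℝ, Q = 8 * (∑ j, |K j| + 1) := ⟨_, rfl⟩
  have hQ0 : 0 < Q := by
    rw [hQ]
    have : 0 ≤ ∑ j, |K j| := Finset.sum_nonneg fun j _ => abs_nonneg _
    linarith
  have hQc : (Q : ℂ) ≠ 0 := by exact_mod_cast hQ0.ne'
  have hgQ : ∀ j x, ‖(Q : ℂ)⁻¹ * g j x‖ ≤ 1 / 8 := by
    intro j x
    rw [norm_mul, norm_inv, Complex.norm_real, Real.norm_of_nonneg hQ0.le, inv_mul_le_iff₀ hQ0]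
    have h1 := (hK j x).trans (le_abs_self _)
    have h2 : |K j| ≤ ∑ j, |K j| :=
      Finset.single_le_sum (f := fun j => |K j|) (fun i _ => abs_nonneg _) (Finset.mem_univ j)
    rw [hQ]
    linarith
  have key := cmp_norm (ν := ν) hτ hv hD (f := fun j x => (Q : ℂ)⁻¹ * g j x) (fun j => measurable_const.mul (hgm j)) hgQ
  filter_upwards [key] with x hx
  have h2 := hx.const_mul ((Q : ℂ) ^ n)
  rw [mul_zero] at h2
  refine h2.congr fun M => ?_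
  have hQn : (Q : ℂ) ^ n ≠ 0 := pow_ne_zero _ hQc
  unfold cavg
  simp only [prod_mul_distrib, prod_const, card_univ, Fintype.card_fin]
  have e1 : ∀ m : Fin k → ℕ, ∫ y, (((Q : ℂ)⁻¹) ^ n * ∏ j, g j (τ j (lin (C j) m + v y j) x)) ∂ν =
      ((Q : ℂ)⁻¹) ^ n * ∫ y, ∏ j, g j (τ j (lin (C j) m + v y j) x) ∂ν := fun m => integral_const_mul _ _
  simp only [e1]
  rw [bavg_mul, bavg_mul, ← mul_sub, ← mul_assoc, inv_pow, mul_inv_cancel₀ hQn, one_mul]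

end Pool.Agent.U587.EV
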