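import Pool.Agent.U587.BX.Sq

set_option autoImplicit false

/-!
Box averages are asymptotically invariant under shifts in the closure of the image of the lattice.
-/

namespace Pool.Agent.U587.EV

open MeasureTheory Filter Finset
open Pool.Agent.Y957.MC (box bavg lin)
open Pool.Agent.U587.BX (bnorm)
open scoped Topology

/-- a point of `ℕ^k` as a point of `ℤ^k` -/
def zc {k : ℕ} (m : Fin k → ℕ) : Fin k → ℤ := fun l => (m l : ℤ)

/-- a linear form on `ℤ^k` -/
noncomputable def lz {k : ℕ} (c : Fin k → ℝ) (z : Fin k → ℤ) : ℝ := ∑ i, c i * (z i : ℝ)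

lemma lz_add {k : ℕ} (c : Fin k → ℝ) (z w : Fin k → ℤ) : lz c (z + w) = lz c z + lz c w := by
  unfold lz
  rw [← sum_add_distrib]
  refine sum_congr rfl fun i _ => ?_
  rw [Pi.add_apply]
  push_cast
  ring

lemma lz_zc {k : ℕ} (c : Fin k → ℝ) (m : Fin k → ℕ) : lz c (zc m) = lin c m := by
  unfold lz lin zc
  refine sum_congr rfl fun i _ => ?_
  push_cast
  ring

lemma tele (φ : ℕ → ℂ) (N : ℕ) : ∑ n ∈ Icc 1 N, (φ (n + 1) - φ n) = φ (N + 1) - φ 1 := by
  induction N with
  | zero => simp
  | succ N ih =>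
    rw [sum_Icc_succ_top (by omega), ih]
    ring

lemma bavg_sub {k : ℕ} (M : Fin k → ℕ) (g h : (Fin k → ℕ) → ℂ) :
    bavg M g - bavg M h = bavg M fun m => g m - h m := by
  unfold bavg
  rw [← mul_sub, ← sum_sub_distrib]

lemma shift_unit {k : ℕ} (i : Fin k) {h : (Fin k → ℤ) → ℂ} {K : ℝ} (hh : ∀ z, ‖h z‖ ≤ K) :
    Tendsto (fun M : Fin k → ℕ => bavg M (fun m => h (zc m + Pi.single i 1)) - bavg M (fun m => h (zc m)))
      atTop (𝓝 0) := by
  have hK : 0 ≤ K := (norm_nonneg _).trans (hh 0)
  have hb : ∀ M : Fin k → ℕ, ‖bavg M (fun m => h (zc m + Pi.single i 1)) - bavg M (fun m => h (zc m))‖ ≤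
      2 * K * (1 / (M i : ℝ)) := by
    intro M
    have e1 : bavg M (fun m => h (zc m + Pi.single i 1)) - bavg M (fun m => h (zc m)) =
        (1 / ((∏ l, M l : ℕ) : ℂ)) * ∑ m ∈ box (Function.update M i 1),
          (h (zc (Function.update m i (M i + 1))) - h (zc (Function.update m i 1))) := by
      rw [bavg_sub]
      unfold bavg
      rw [Pool.Agent.Y86.MC.sum_box i]
      congr 1
      refine sum_congr rfl fun m _ => ?_
      have h1 : ∀ n : ℕ, zc (Function.update m i n) + Pi.single i 1 = zc (Function.update m i (n + 1)) := by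
        intro n
        funext l
        rw [Pi.add_apply]
        unfold zc
        by_cases hl : l = i
        · subst hl
          rw [Function.update_self, Function.update_self, Pi.single_eq_same]
          push_cast
          ring
        · rw [Function.update_of_ne hl, Function.update_of_ne hl, Pi.single_eq_of_ne hl, add_zero]
      simp only [h1]
      exact tele (fun n => h (zc (Function.update m i n))) (M i)
    rw [e1, norm_mul]
    have e2 : ‖∑ m ∈ box (Function.update M i 1),
          (h (zc (Function.update m i (M i + 1))) - h (zc (Function.update m i 1)))‖ ≤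
        (box (Function.update M i 1)).card * (2 * K) := by
      refine (norm_sum_le _ _).trans ?_
      rw [← nsmul_eq_mul]
      refine sum_le_card_nsmul _ _ _ fun m _ => (norm_sub_le _ _).trans ?_
      linarith [hh (zc (Function.update m i (M i + 1))), hh (zc (Function.update m i 1))]
    refine (mul_le_mul_of_nonneg_left e2 (norm_nonneg _)).trans ?_
    rw [Pool.Agent.Y86.MC.card_split i M, norm_div, norm_one, Complex.norm_natCast]
    push_cast
    rcases Nat.eq_zero_or_pos ((box (Function.update M i 1)).card) with h0 | h0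
    · rw [h0]
      simp only [Nat.cast_zero, mul_zero, zero_mul]
      positivity
    · rcases Nat.eq_zero_or_pos (M i) with h1 | h1
      · rw [h1]; simp
      · have h2 : (0 : ℝ) < M i := by exact_mod_cast h1
        have h3 : (0 : ℝ) < (box (Function.update M i 1)).card := by exact_mod_cast h0
        apply le_of_eq
        field_simp
  have hM : Tendsto (fun M : Fin k → ℕ => M i) atTop atTop :=
    tendsto_atTop.2 fun b => by
      filter_upwards [eventually_ge_atTop (fun _ : Fin k => b)] with M hM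
      exact hM i
  have h3 : Tendsto (fun M : Fin k → ℕ => 2 * K * (1 / (M i : ℝ))) atTop (𝓝 0) := by
    have := ((tendsto_one_div_atTop_nhds_zero_nat (𝕜 := ℝ)).comp hM).const_mul (2 * K)
    rw [mul_zero] at this
    exact this
  exact squeeze_zero_norm hb h3

/-- the shifts which are allowed -/
def shiftGroup (k : ℕ) : AddSubgroup (Fin k → ℤ) where
  carrier := {r | ∀ (h : (Fin k → ℤ) → ℂ) (K : ℝ), (∀ z, ‖h z‖ ≤ K) →
    Tendsto (fun M : Fin k → ℕ => bavg M (fun m => h (zc m + r)) - bavg M (fun m => h (zc m))) atTop (𝓝 0)}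
  zero_mem' := by
    intro h K _
    simp only [add_zero, sub_self]
    exact tendsto_const_nhds
  add_mem' := by
    intro a b ha hb h K hh
    have h1 := ha (fun z => h (z + b)) K fun z => hh _
    have h2 := hb h K hh
    have h3 := h1.add h2
    rw [add_zero] at h3
    refine h3.congr fun M => ?_
    have e : ∀ m : Fin k → ℕ, zc m + a + b = zc m + (a + b) := fun m => by rw [add_assoc]
    simp only [e]
    ring
  neg_mem' := by
    intro a ha h K hh
    have h1 := (ha (fun z => h (z - a)) K fun z => hh _).neg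
    rw [neg_zero] at h1
    refine h1.congr fun M => ?_
    have e : ∀ m : Fin k → ℕ, zc m + a - a = zc m := fun m => by rw [add_sub_cancel_right]
    simp only [e, sub_eq_add_neg]
    ring

lemma shift_all {k : ℕ} (r : Fin k → ℤ) {h : (Fin k → ℤ) → ℂ} {K : ℝ} (hh : ∀ z, ‖h z‖ ≤ K) :
    Tendsto (fun M : Fin k → ℕ => bavg M (fun m => h (zc m + r)) - bavg M (fun m => h (zc m))) atTop (𝓝 0) := by
  have h1 : r ∈ shiftGroup k := by
    rw [← Finset.univ_sum_single r]
    refine AddSubgroup.sum_mem _ fun i _ => ?_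
    have h2 : (Pi.single i (r i) : Fin k → ℤ) = r i • (Pi.single i 1 : Fin k → ℤ) := by
      funext l
      by_cases hl : l = i
      · subst hl; simp
      · simp [Pi.single_eq_of_ne hl]
    rw [h2]
    have h3 : (Pi.single i 1 : Fin k → ℤ) ∈ shiftGroup k := fun h K hh => shift_unit i hh
    exact AddSubgroup.zsmul_mem _ h3 _
  exact h1 h K hh

/-- asymptotic invariance under a shift in the closure -/
theorem dens_shift {k n : ℕ} {C : Fin n → Fin k → ℝ} {R : Set (Fin k → ℤ)} {w : (Fin k → ℤ) → ℂ}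
    (hw1 : ∀ z, ‖w z‖ ≤ 1) (hwR : ∀ r ∈ R, ∀ z, w (z + r) = w z) {F : (Fin n → ℝ) → ℂ} (hF1 : ∀ t, ‖F t‖ ≤ 1)
    {K : ℝ} (hK : 0 ≤ K) (hFL : ∀ s t, ‖F s - F t‖ ≤ K * ∑ j, |s j - t j|) {v : Fin n → ℝ}
    (hv : ∀ ε : ℝ, 0 < ε → ∃ r ∈ R, ∀ j, |lz (C j) r - v j| < ε) :
    Tendsto (fun M : Fin k → ℕ => bavg M (fun m => w (zc m) * F (fun j => lin (C j) m + v j)) -
      bavg M (fun m => w (zc m) * F (fun j => lin (C j) m))) atTop (𝓝 0) := by
  rw [Metric.tendsto_nhds]
  intro ε hε
  obtain ⟨δ, hδ⟩ : ∃ δ : ℝ, δ = ε / (2 * (K * n + 1)) := ⟨_, rfl⟩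
  have hδ0 : 0 < δ := by rw [hδ]; positivity
  obtain ⟨r, hrR, hr⟩ := hv δ hδ0
  have h1 := shift_all r (h := fun z => w z * F fun j => lz (C j) z) (K := 1) fun z => by
    rw [norm_mul]
    exact mul_le_one₀ (hw1 z) (norm_nonneg _) (hF1 _)
  filter_upwards [(Metric.tendsto_nhds.1 h1) (ε / 2) (half_pos hε)] with M hM
  rw [dist_zero_right] at hM ⊢
  have h2 : ‖bavg M (fun m => w (zc m) * F (fun j => lin (C j) m + v j)) -
      bavg M (fun m => w (zc m + r) * F fun j => lz (C j) (zc m + r))‖ ≤ K * (n * δ) := by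
    rw [bavg_sub]
    refine bnorm M (by positivity) fun m => ?_
    rw [hwR r hrR, ← mul_sub, norm_mul]
    calc ‖w (zc m)‖ * ‖F (fun j => lin (C j) m + v j) - F fun j => lz (C j) (zc m + r)‖
        ≤ 1 * (K * ∑ j, |lin (C j) m + v j - lz (C j) (zc m + r)|) :=
          mul_le_mul (hw1 _) (hFL _ _) (norm_nonneg _) zero_le_one
      _ ≤ K * (n * δ) := by
          rw [one_mul]
          refine mul_le_mul_of_nonneg_left ?_ hK
          have h3 : ∀ j ∈ (univ : Finset (Fin n)), |lin (C j) m + v j - lz (C j) (zc m + r)| ≤ δ := by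
            intro j _
            rw [lz_add, lz_zc, show lin (C j) m + v j - (lin (C j) m + lz (C j) r) = -(lz (C j) r - v j) by ring,
              abs_neg]
            exact (hr j).le
          refine (sum_le_sum h3).trans (le_of_eq ?_)
          rw [sum_const, card_univ, Fintype.card_fin, nsmul_eq_mul]
  have h4 : K * (n * δ) < ε / 2 := by
    rw [hδ]
    have hp : (0 : ℝ) < 2 * (K * n + 1) := by positivity
    rw [show K * (n * (ε / (2 * (K * n + 1)))) = (K * n) * ε / (2 * (K * n + 1)) by ring, div_lt_iff₀ hp]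
    nlinarith [mul_nonneg hK (Nat.cast_nonneg n : (0 : ℝ) ≤ n)]
  have h5 : bavg M (fun m => w (zc m) * F (fun j => lin (C j) m + v j)) -
      bavg M (fun m => w (zc m) * F (fun j => lin (C j) m)) =
      (bavg M (fun m => w (zc m) * F (fun j => lin (C j) m + v j)) -
        bavg M (fun m => w (zc m + r) * F fun j => lz (C j) (zc m + r))) +
      (bavg M (fun m => w (zc m + r) * F fun j => lz (C j) (zc m + r)) -
        bavg M (fun m => w (zc m) * F fun j => lz (C j) (zc m))) := by
    have : (fun m : Fin k → ℕ => w (zc m) * F fun j => lz (C j) (zc m)) =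
        fun m => w (zc m) * F fun j => lin (C j) m := by
      funext m
      simp only [lz_zc]
    rw [this]
    ring
  rw [h5]
  refine lt_of_le_of_lt (norm_add_le _ _) ?_
  linarith

/-- averages over a family of shifts -/
theorem dens_avg {k n : ℕ} {C : Fin n → Fin k → ℝ} {R : Set (Fin k → ℤ)} {w : (Fin k → ℤ) → ℂ}
    (hw1 : ∀ z, ‖w z‖ ≤ 1) (hwR : ∀ r ∈ R, ∀ z, w (z + r) = w z) {F : (Fin n → ℝ) → ℂ} (hF1 : ∀ t, ‖F t‖ ≤ 1)
    {K : ℝ} (hK : 0 ≤ K) (hFL : ∀ s t, ‖F s - F t‖ ≤ K * ∑ j, |s j - t j|)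
    {Y : Type*} [MeasurableSpace Y] {ν : Measure Y} [IsProbabilityMeasure ν] {v : Y → Fin n → ℝ} (hvm : Measurable v)
    (hv : ∀ y, ∀ ε : ℝ, 0 < ε → ∃ r ∈ R, ∀ j, |lz (C j) r - v y j| < ε) :
    Tendsto (fun M : Fin k → ℕ => bavg M (fun m => w (zc m) * ∫ y, F (fun j => lin (C j) m + v y j) ∂ν) -
      bavg M (fun m => w (zc m) * F (fun j => lin (C j) m))) atTop (𝓝 0) := by
  have hFc : Continuous F := by
    rw [Metric.continuous_iff]
    intro t ε hε
    obtain ⟨δ, hδ⟩ : ∃ δ : ℝ, δ = ε / (2 * (K * n + 1)) := ⟨_, rfl⟩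
    have hδ0 : 0 < δ := by rw [hδ]; positivity
    refine ⟨δ, hδ0, fun s hs => ?_⟩
    rw [dist_eq_norm]
    refine lt_of_le_of_lt (hFL s t) ?_
    have h3 : ∀ j ∈ (univ : Finset (Fin n)), |s j - t j| ≤ δ := by
      intro j _
      rw [← Real.dist_eq]
      exact (dist_le_pi_dist s t j).trans hs.le
    have h4 : K * ∑ j, |s j - t j| ≤ K * (n * δ) := by
      refine mul_le_mul_of_nonneg_left ((sum_le_sum h3).trans (le_of_eq ?_)) hK
      rw [sum_const, card_univ, Fintype.card_fin, nsmul_eq_mul]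
    refine lt_of_le_of_lt h4 ?_
    rw [hδ]
    have hp : (0 : ℝ) < 2 * (K * n + 1) := by positivity
    rw [show K * (n * (ε / (2 * (K * n + 1)))) = (K * n) * ε / (2 * (K * n + 1)) by ring, div_lt_iff₀ hp]
    nlinarith [mul_nonneg hK (Nat.cast_nonneg n : (0 : ℝ) ≤ n)]
  have hmeas : ∀ m : Fin k → ℕ, Measurable fun y => F (fun j => lin (C j) m + v y j) := by
    intro m
    refine hFc.measurable.comp (measurable_pi_lambda _ fun j => ?_)
    exact measurable_const.add ((measurable_pi_apply j).comp hvm)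
  have hint : ∀ m : Fin k → ℕ, Integrable (fun y => F (fun j => lin (C j) m + v y j)) ν := fun m =>
    Integrable.of_bound (C := 1) (hmeas m).aestronglyMeasurable (ae_of_all _ fun y => hF1 _)
  have hsw : ∀ M : Fin k → ℕ, bavg M (fun m => w (zc m) * ∫ y, F (fun j => lin (C j) m + v y j) ∂ν) =
      ∫ y, bavg M (fun m => w (zc m) * F (fun j => lin (C j) m + v y j)) ∂ν := by
    intro M
    unfold bavg
    rw [integral_const_mul, integral_finsetSum _ fun m _ => (hint m).const_mul _]
    congr 1
    refine sum_congr rfl fun m _ => ?_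
    rw [integral_const_mul]
  have hbm : ∀ M : Fin k → ℕ, Measurable fun y => bavg M (fun m => w (zc m) * F (fun j => lin (C j) m + v y j)) := by
    intro M
    unfold bavg
    exact measurable_const.mul (Finset.measurable_sum _ fun m _ => measurable_const.mul (hmeas m))
  have hb1 : ∀ (M : Fin k → ℕ) (G : (Fin k → ℕ) → ℂ), (∀ m, ‖G m‖ ≤ 1) → ‖bavg M (fun m => w (zc m) * G m)‖ ≤ 1 := by
    intro M G hG
    refine bnorm M zero_le_one fun m => ?_
    rw [norm_mul]
    exact mul_le_one₀ (hw1 _) (norm_nonneg _) (hG _)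
  have h1 : Tendsto (fun M : Fin k → ℕ => ∫ y, (bavg M (fun m => w (zc m) * F (fun j => lin (C j) m + v y j)) -
      bavg M (fun m => w (zc m) * F (fun j => lin (C j) m))) ∂ν) atTop (𝓝 (∫ _y : Y, (0 : ℂ) ∂ν)) := by
    refine tendsto_integral_filter_of_dominated_convergence (fun _ => 2)
      (Eventually.of_forall fun M => ((hbm M).sub measurable_const).aestronglyMeasurable)
      (Eventually.of_forall fun M => ae_of_all _ fun y => ?_) (integrable_const _)
      (ae_of_all _ fun y => dens_shift hw1 hwR hF1 hK hFL (hv y))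
    refine (norm_sub_le _ _).trans ?_
    linarith [hb1 M (fun m => F (fun j => lin (C j) m + v y j)) fun m => hF1 _,
      hb1 M (fun m => F (fun j => lin (C j) m)) fun m => hF1 _]
  rw [integral_zero] at h1
  refine h1.congr fun M => ?_
  rw [hsw, integral_sub]
  · rw [integral_const]
    simp
  · exact Integrable.of_bound (C := 1) (hbm M).aestronglyMeasurable (ae_of_all _ fun y => hb1 M _ fun m => hF1 _)
  · exact integrable_const _

end Pool.Agent.U587.EV
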