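import Pool.Agent.U587.EV.Shift

set_option autoImplicit false

/-!
Linear forms with a dense image of the lattice, at every time: replacing a factor by its average along the flow.
-/

namespace Pool.Agent.U587.EV

open MeasureTheory Filter Finset
open Pool.Agent.Y957.MC (IsFlow flowInv smo smo_lip box bavg lin)
open Pool.Agent.R497.TB (ravg sep)
open Pool.Agent.Y312.MC (smo_meas smo_bdd smo_L1 meas_orb flowInv_le ii_orb condExp_smo inv_of_meas int_bdd)
open Pool.Agent.U587.ET (exists_small prod_diff_c norm_prod_le_one gs er gs_meas gs_bd gs_lip er_L1 sub_gs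
  er_meas er_bd disc_erg)
open Pool.Agent.U587.DX (ce ce_meas ce_bd ce_ae cc cc_meas cc_inv cc_bd cc_ae)
open Pool.Agent.U587.BX (bnorm lim_int sg_iter rmono rsum rconst_le rnonneg)
open scoped Topology

universe u

variable {X : Type u} [mX : MeasurableSpace X] {μ : Measure X}

section lin

variable [IsProbabilityMeasure μ] {τ : ℝ → X → X} {k : ℕ}

/-- averages of one function along a linear form over unrestricted boxes -/
lemma lim_lin (hτ : IsFlow μ τ) (c : Fin k → ℝ) {h : X → ℝ} (hm : Measurable h) {C : ℝ}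
    (hb : ∀ x, 0 ≤ h x ∧ h x ≤ C) :
    ∃ H : X → ℝ, Integrable H μ ∧ 0 ≤ᵐ[μ] H ∧ ∫ x, H x ∂μ = ∫ x, h x ∂μ ∧ ∀ᵐ x ∂μ,
      Tendsto (fun M : Fin k → ℕ => ravg M fun m => h (τ (lin c m) x)) atTop (𝓝 (H x)) := by
  have hS : Pool.Agent.U587.BX.Sg μ τ (fun l => Polynomial.C (c l) * Polynomial.X) 1 := by
    refine sg_iter hτ _ fun l => ?_
    intro g hg hgb
    obtain ⟨K, hK⟩ := hgb
    filter_upwards [disc_erg hτ hg hK (c l)] with x hx
    refine ⟨_, hx.congr fun N => ?_⟩
    have e1 : Ioc 0 N = Icc 1 N := by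
      ext n
      simp only [mem_Ioc, mem_Icc]
      omega
    rw [e1]
    congr 1
    refine sum_congr rfl fun n _ => ?_
    rw [Polynomial.eval_mul, Polynomial.eval_C, Polynomial.eval_X, one_mul]
  have e2 : ∀ m : Fin k → ℕ, (1 : ℝ) * sep (fun l => Polynomial.C (c l) * Polynomial.X) m = lin c m := by
    intro m
    unfold sep lin
    rw [one_mul]
    refine sum_congr rfl fun l _ => ?_
    rw [Polynomial.eval_mul, Polynomial.eval_C, Polynomial.eval_X]
  obtain ⟨H, h1, h2, h3, h4⟩ := lim_int hτ hS hm hb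
  simp only [e2] at h4
  exact ⟨H, h1, h2, h3, h4⟩

end lin

/-- the uniform distribution on `(0, S]` -/
noncomputable def un (S : ℝ) : Measure ℝ := (ENNReal.ofReal S)⁻¹ • volume.restrict (Set.Ioc 0 S)

lemma un_prob {S : ℝ} (hS : 0 < S) : IsProbabilityMeasure (un S) := by
  constructor
  unfold un
  rw [Measure.smul_apply, Measure.restrict_apply_univ, Real.volume_Ioc, sub_zero, smul_eq_mul]
  exact ENNReal.inv_mul_cancel (by simpa using hS) ENNReal.ofReal_ne_top

lemma un_int {S : ℝ} (hS : 0 < S) {E : Type*} [NormedAddCommGroup E] [NormedSpace ℝ E] (f : ℝ → E) :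
    ∫ y, f y ∂(un S) = (1 / S) • ∫ y in (0 : ℝ)..S, f y := by
  unfold un
  rw [integral_smul_measure, intervalIntegral.integral_of_le hS.le, ENNReal.toReal_inv, ENNReal.toReal_ofReal hS.le,
    one_div]

lemma gs_int [IsProbabilityMeasure μ] {τ : ℝ → X → X} (hτ : IsFlow μ τ) {f : X → ℂ} (hf : Measurable f)
    (hf1 : ∀ x, ‖f x‖ ≤ 1) {S : ℝ} (hS : 0 < S) (x : X) : gs τ f S x = ∫ y, f (τ y x) ∂(un S) := by
  have := un_prob hS
  have hm : Measurable fun y : ℝ => f (τ y x) := hf.comp (hτ.meas.comp (measurable_id.prodMk measurable_const))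
  have hi : Integrable (fun y : ℝ => f (τ y x)) (un S) :=
    Integrable.of_bound (C := 1) hm.aestronglyMeasurable (ae_of_all _ fun y => hf1 _)
  have e := integral_re_add_im hi
  rw [← e]
  unfold gs smo
  rw [un_int hS, un_int hS]
  simp only [smul_eq_mul, RCLike.re_to_complex, RCLike.im_to_complex, Complex.coe_algebraMap, RCLike.I_to_complex]

/-- replacing one factor by its average along the flow, at one point -/
theorem rep_one [IsProbabilityMeasure μ] {k n : ℕ} {τ : Fin n → ℝ → X → X} (hτ : ∀ j, IsFlow μ (τ j))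
    {C : Fin n → Fin k → ℝ} {R : Set (Fin k → ℤ)} (j0 : Fin n)
    (hR : ∀ s ε : ℝ, 0 < ε → ∃ r ∈ R, ∀ j, |lz (C j) r - (Pi.single j0 s : Fin n → ℝ) j| < ε)
    {w : (Fin k → ℤ) → ℂ} (hw1 : ∀ z, ‖w z‖ ≤ 1) (hwR : ∀ r ∈ R, ∀ z, w (z + r) = w z)
    {u : Fin n → X → ℂ} (hu1 : ∀ j x, ‖u j x‖ ≤ 1) {L : Fin n → ℝ}
    (huL : ∀ j s t x, ‖u j (τ j s x) - u j (τ j t x)‖ ≤ L j * |s - t|) (hum : Measurable (u j0))
    {S : ℝ} (hS : 0 < S) (x : X) :
    Tendsto (fun M : Fin k → ℕ => bavg M (fun m => w (zc m) *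
        ∏ j, (Function.update u j0 (gs (τ j0) (u j0) S)) j (τ j (lin (C j) m) x)) -
      bavg M (fun m => w (zc m) * ∏ j, u j (τ j (lin (C j) m) x))) atTop (𝓝 0) := by
  have := un_prob hS
  have h := dens_avg (C := C) (R := R) (w := w) hw1 hwR (F := fun t => ∏ j, u j (τ j (t j) x))
    (fun t => norm_prod_le_one _ _ fun j _ => hu1 j _) (K := ∑ j, |L j|) (sum_nonneg fun j _ => abs_nonneg _)
    (fun s t => ?_) (ν := un S) (v := fun y => Pi.single j0 y) (measurable_pi_lambda _ fun j => ?_)
    (fun y ε hε => hR _ ε hε)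
  · refine h.congr fun M => ?_
    congr 2
    funext m
    congr 1
    have e1 : ∀ y : ℝ, ∏ j, u j (τ j (lin (C j) m + (Pi.single j0 y : Fin n → ℝ) j) x) =
        (∏ j ∈ univ.erase j0, u j (τ j (lin (C j) m) x)) * u j0 (τ j0 y (τ j0 (lin (C j0) m) x)) := by
      intro y
      rw [← mul_prod_erase univ _ (mem_univ j0), mul_comm, Pi.single_eq_same, add_comm, (hτ j0).add]
      congr 1
      refine prod_congr rfl fun j hj => ?_
      rw [Pi.single_eq_of_ne (ne_of_mem_erase hj), add_zero]
    simp only [e1]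
    rw [integral_const_mul, ← gs_int (hτ j0) hum (hu1 j0) hS, ← mul_prod_erase univ _ (mem_univ j0), mul_comm,
      Function.update_self]
    congr 1
    refine prod_congr rfl fun j hj => ?_
    rw [Function.update_of_ne (ne_of_mem_erase hj)]
  · refine (prod_diff_c univ _ _ (fun j _ => hu1 j _) fun j _ => hu1 j _).trans ?_
    rw [mul_sum]
    refine sum_le_sum fun j _ => (huL j _ _ x).trans ?_
    exact mul_le_mul_of_nonneg_right ((le_abs_self _).trans
      (single_le_sum (f := fun j => |L j|) (fun i _ => abs_nonneg _) (mem_univ j))) (abs_nonneg _)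
  · by_cases hj : j = j0
    · subst hj
      simp only [Pi.single_eq_same]
      exact measurable_id
    · simp only [Pi.single_eq_of_ne hj]
      exact measurable_const

/-- replacing the factors in `J` -/
theorem rep_all [IsProbabilityMeasure μ] {k n : ℕ} {τ : Fin n → ℝ → X → X} (hτ : ∀ j, IsFlow μ (τ j))
    {C : Fin n → Fin k → ℝ} {R : Set (Fin k → ℤ)} {J : Finset (Fin n)}
    (hR : ∀ j0 ∈ J, ∀ s ε : ℝ, 0 < ε → ∃ r ∈ R, ∀ j, |lz (C j) r - (Pi.single j0 s : Fin n → ℝ) j| < ε)
    {w : (Fin k → ℤ) → ℂ} (hw1 : ∀ z, ‖w z‖ ≤ 1) (hwR : ∀ r ∈ R, ∀ z, w (z + r) = w z)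
    {u : Fin n → X → ℂ} (hu1 : ∀ j x, ‖u j x‖ ≤ 1 / 2) {L : Fin n → ℝ}
    (huL : ∀ j s t x, ‖u j (τ j s x) - u j (τ j t x)‖ ≤ L j * |s - t|) (hum : ∀ j, Measurable (u j))
    {S : Fin n → ℝ} (hS : ∀ j, 0 < S j) (x : X) :
    Tendsto (fun M : Fin k → ℕ => bavg M (fun m => w (zc m) *
        ∏ j, (if j ∈ J then gs (τ j) (u j) (S j) else u j) (τ j (lin (C j) m) x)) -
      bavg M (fun m => w (zc m) * ∏ j, u j (τ j (lin (C j) m) x))) atTop (𝓝 0) := by
  classical
  suffices H : ∀ s : Finset (Fin n), s ⊆ J → Tendsto (fun M : Fin k → ℕ => bavg M (fun m => w (zc m) *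
        ∏ j, (if j ∈ s then gs (τ j) (u j) (S j) else u j) (τ j (lin (C j) m) x)) -
      bavg M (fun m => w (zc m) * ∏ j, u j (τ j (lin (C j) m) x))) atTop (𝓝 0) from H J (Finset.Subset.refl _)
  intro s
  induction s using Finset.induction_on with
  | empty =>
    intro _
    simp only [notMem_empty, if_false, sub_self]
    exact tendsto_const_nhds
  | insert j0 s hj0 ih =>
    intro hsJ
    have ih' := ih ((subset_insert _ _).trans hsJ)
    have h1 := rep_one hτ j0 (hR j0 (hsJ (mem_insert_self _ _))) hw1 hwR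
      (u := fun j => if j ∈ s then gs (τ j) (u j) (S j) else u j) (fun j x => ?_)
      (L := fun j => if j ∈ s then 2 / S j else L j) (fun j a b x => ?_) ?_ (hS j0) x
    · have h2 := h1.add ih'
      rw [add_zero] at h2
      refine h2.congr fun M => ?_
      have e1 : Function.update (fun j => if j ∈ s then gs (τ j) (u j) (S j) else u j) j0
          (gs (τ j0) ((fun j => if j ∈ s then gs (τ j) (u j) (S j) else u j) j0) (S j0)) =
          fun j => if j ∈ insert j0 s then gs (τ j) (u j) (S j) else u j := by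
        funext j
        by_cases hj : j = j0
        · subst hj
          rw [Function.update_self]
          simp only [mem_insert_self, if_true, if_neg hj0]
        · rw [Function.update_of_ne hj]
          by_cases hjs : j ∈ s
          · simp only [hjs, if_true, mem_insert_of_mem hjs]
          · have : j ∉ insert j0 s := by simp [hj, hjs]
            simp only [hjs, this, if_false]
      rw [e1]
      ring
    · by_cases hj : j ∈ s
      · simp only [hj, if_true]
        exact gs_bd (hu1 j) (hS j) x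
      · simp only [hj, if_false]
        exact (hu1 j x).trans (by norm_num)
    · by_cases hj : j ∈ s
      · simp only [hj, if_true]
        exact gs_lip (hτ j) (hum j) (hu1 j) (hS j) x a b
      · simp only [hj, if_false]
        exact huL j a b x
    · simp only [hj0, if_false]
      exact hum j0

end Pool.Agent.U587.EV
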